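import Mathlib
import Pool.Agent.W953.NW.Win

/-!
# Monotone models of computation: slices and windows
-/

set_option autoImplicit false

namespace Pool.Agent.W953.NB

open Pool.Agent.H540R2 Pool.Agent.H540R2.Circuit Pool.Agent.W953.NW

/-- a monotone model of computation: `K f s` means that `f` has complexity at most `s` -/
structure Model where
  K : ∀ {n : ℕ}, BF n → ℕ → Prop
  mono : ∀ {n : ℕ} {f : BF n} {s t : ℕ}, K f s → s ≤ t → K f t
  var : ∀ {n : ℕ} (i : Fin n), K (fun x => x i) 1
  const : ∀ {n : ℕ} (b : Bool), K (fun _ : Fin n → Bool => b) 1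
  and : ∀ {n : ℕ} {f g : BF n} {s t : ℕ}, K f s → K g t → K (fun x => f x && g x) (s + t)
  or : ∀ {n : ℕ} {f g : BF n} {s t : ℕ}, K f s → K g t → K (fun x => f x || g x) (s + t)
  comp : ∀ {m n : ℕ} {F : BF m} {s : ℕ}, K F s → ∀ {g : Fin m → BF n} {t : ℕ},
    (∀ i, K (g i) t) → K (fun x => F (fun i => g i x)) (s * t)

namespace Model

variable (𝓜 : Model) {n m : ℕ}

lemma congr {f g : BF n} {s : ℕ} (h : 𝓜.K f s) (hg : ∀ x, f x = g x) : 𝓜.K g s := by
  have : f = g := funext hg
  rw [← this]
  exact h

/-- complexity over the literals -/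
def L (f : BF n) (s : ℕ) : Prop := ∃ Q : BF (n + n), 𝓜.K Q s ∧ ∀ x, Q (lits x) = f x

variable {𝓜}

/-- functions with shallow monotone circuits -/
lemma of_MC {f : BF n} {s d : ℕ} (h : MC f s d) : 𝓜.K f (2 ^ d) := by
  obtain ⟨C, h1, -, h3, h4⟩ := h
  have key : ∀ i < C.size, 𝓜.K (fun x => C.val x i) (2 ^ C.gateDepth i) := by
    intro i
    induction i using Nat.strong_induction_on with
    | _ i ih =>
      intro hi
      have hnode : ∀ a : Node n, (∀ j, a.wires j ≠ 0 → j < i) →
          𝓜.K (fun x => a.eval x (C.val x)) (2 ^ a.depth C.gateDepth) := by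
        intro a ha
        cases a with
        | var l => exact 𝓜.mono (𝓜.var l) Nat.one_le_two_pow
        | const b => exact 𝓜.mono (𝓜.const b) Nat.one_le_two_pow
        | gate j =>
          have hj : j < i := ha j (by simp [Node.wires])
          exact ih j hj (hj.trans hi)
      have hlt := C.gate_lt i hi
      have hev : ∀ x, C.val x i = (C.gate i).eval x (C.val x) :=
        C.val_gate hi
      rw [C.gateDepth_gate hi]
      cases hg : C.gate i with
      | and a b =>
        rw [hg] at hlt
        have e1 := hnode a (fun k hk => hlt k (by simp only [Gate.wires]; omega))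
        have e2 := hnode b (fun k hk => hlt k (by simp only [Gate.wires]; omega))
        refine 𝓜.congr (𝓜.mono (𝓜.and e1 e2) ?_) (fun x => ?_)
        · show _ ≤ 2 ^ (max (a.depth C.gateDepth) (b.depth C.gateDepth) + 1)
          rw [pow_succ]
          have h5 := Nat.pow_le_pow_right (n := 2) (by norm_num)
            (le_max_left (a.depth C.gateDepth) (b.depth C.gateDepth))
          have h6 := Nat.pow_le_pow_right (n := 2) (by norm_num)
            (le_max_right (a.depth C.gateDepth) (b.depth C.gateDepth))
          omega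
        · rw [hev, hg]; rfl
      | or a b =>
        rw [hg] at hlt
        have e1 := hnode a (fun k hk => hlt k (by simp only [Gate.wires]; omega))
        have e2 := hnode b (fun k hk => hlt k (by simp only [Gate.wires]; omega))
        refine 𝓜.congr (𝓜.mono (𝓜.or e1 e2) ?_) (fun x => ?_)
        · show _ ≤ 2 ^ (max (a.depth C.gateDepth) (b.depth C.gateDepth) + 1)
          rw [pow_succ]
          have h5 := Nat.pow_le_pow_right (n := 2) (by norm_num)
            (le_max_left (a.depth C.gateDepth) (b.depth C.gateDepth))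
          have h6 := Nat.pow_le_pow_right (n := 2) (by norm_num)
            (le_max_right (a.depth C.gateDepth) (b.depth C.gateDepth))
          omega
        · rw [hev, hg]; rfl
      | not a => exact absurd hg (h1 i hi a)
  have hout : 𝓜.K (fun x => C.out.eval x (C.val x)) (2 ^ C.out.depth C.gateDepth) := by
    have hlt := C.out_lt
    cases ho : C.out with
    | var l => exact 𝓜.mono (𝓜.var l) Nat.one_le_two_pow
    | const b => exact 𝓜.mono (𝓜.const b) Nat.one_le_two_pow
    | gate j =>
      rw [ho] at hlt
      exact key j (hlt j (by simp [Node.wires]))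
  refine 𝓜.congr (𝓜.mono hout (Nat.pow_le_pow_right (by norm_num) h3)) (fun x => ?_)
  rw [← h4 x]
  rfl

/-- thresholds -/
lemma thr (k : ℕ) : 𝓜.K (NW.thr k : BF n) (2 ^ tde n) := of_MC (thr_mc k)

lemma off {f : BF n} {s : ℕ} (h : 𝓜.K f s) (i : Fin n) : 𝓜.K (fun x => f (NW.off i x)) s := by
  have h1 : ∀ l : Fin n, 𝓜.K (fun x : Fin n → Bool => NW.off i x l) 1 := by
    intro l
    by_cases hl : l = i
    · exact 𝓜.congr (𝓜.const false) fun x => by simp [NW.off, hl]
    · exact 𝓜.congr (𝓜.var l) fun x => by simp [NW.off, hl]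
  exact 𝓜.mono (𝓜.comp h h1) (by omega)

/-- one slice -/
theorem slice {f : BF n} {s : ℕ} (h : 𝓜.L f s) (k : ℕ) :
    ∃ g : BF n, 𝓜.K g ((s + 1) * 2 ^ tde n) ∧
      (∀ x, wt x = k → g x = f x) ∧ ∀ x, wt x < k → g x = false := by
  obtain ⟨Q, hQ, hQf⟩ := h
  set G : Fin (n + n) → BF n := Fin.addCases (fun i x => x i)
    (fun i x => NW.thr k (NW.off i x)) with hG
  have hGl : ∀ i x, G (Fin.castAdd n i) x = x i := by
    intro i x; simp only [hG, Fin.addCases_left]
  have hGr : ∀ i x, G (Fin.natAdd n i) x = NW.thr k (NW.off i x) := by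
    intro i x; simp only [hG, Fin.addCases_right]
  have h1 : ∀ p, 𝓜.K (G p) (2 ^ tde n) := by
    intro p
    refine Fin.addCases (fun i => ?_) (fun i => ?_) p
    · exact 𝓜.congr (𝓜.mono (𝓜.var i) Nat.one_le_two_pow) fun x => (hGl i x).symm
    · exact 𝓜.congr (off (thr (n := n) k) i) fun x => (hGr i x).symm
  refine ⟨fun x => NW.thr k x && Q (fun p => G p x), ?_, fun x hx => ?_, fun x hx => ?_⟩
  · refine 𝓜.mono (𝓜.and (thr (n := n) k) (𝓜.comp hQ h1)) (le_of_eq (by ring))
  · have h2 : (fun p => G p x) = lits x := by
      funext p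
      refine Fin.addCases (fun i => ?_) (fun i => ?_) p
      · rw [hGl]
        simp only [lits, Fin.append_left]
      · rw [hGr]
        simp only [lits, Fin.append_right]
        cases hxi : x i with
        | false => simp [NW.thr, off_false hxi, hx]
        | true =>
          have := wt_off_true hxi
          simp [NW.thr]
          omega
    simp only [h2, hQf]
    simp [NW.thr, hx]
  · simp [NW.thr]
    intro h3
    omega

/-- the size bound of the windows -/
def wsz (n s w : ℕ) : ℕ := (2 ^ (tde n + 1)) ^ w * ((s + 1) * 2 ^ tde n)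

theorem window_aux {f : BF n} (hf : ∀ x y : Fin n → Bool, (∀ i, x i ≤ y i) → f x ≤ f y)
    {s : ℕ} (h : 𝓜.L f s) (k : ℕ) : ∀ w : ℕ,
    ∃ g : BF n, 𝓜.K g (wsz n s w) ∧
      (∀ x, k ≤ wt x → wt x ≤ k + w → g x = f x) ∧ ∀ x, wt x < k → g x = false := by
  intro w
  induction w with
  | zero =>
    obtain ⟨g, g1, g2, g3⟩ := slice h k
    exact ⟨g, 𝓜.mono g1 (by unfold wsz; simp), fun x hx1 hx2 => g2 x (by omega), g3⟩
  | succ w ih =>
    obtain ⟨g, g1, g2, g3⟩ := ih
    obtain ⟨B, hB⟩ : ∃ B, B = (s + 1) * 2 ^ tde n := ⟨_, rfl⟩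
    obtain ⟨E, hE⟩ : ∃ E, E = (2 ^ (tde n + 1)) ^ w := ⟨_, rfl⟩
    obtain ⟨T, hT⟩ : ∃ T, T = 2 ^ tde n := ⟨_, rfl⟩
    have hT1 : 1 ≤ T := by rw [hT]; exact Nat.one_le_two_pow
    have hE1 : 1 ≤ E := by rw [hE]; exact Nat.one_le_pow _ _ (by positivity)
    have hEs : wsz n s (w + 1) = E * (2 * T) * B := by
      unfold wsz
      rw [pow_succ, ← hE, ← hB, hT, pow_succ]
      ring
    have hEw : wsz n s w = E * B := by
      unfold wsz
      rw [← hE, ← hB]
    rw [hEw] at g1
    rw [hEs]
    have e5 : E * B ≤ E * (2 * T) * B := by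
      refine Nat.mul_le_mul_right _ (Nat.le_mul_of_pos_right _ (by omega))
    by_cases hn : n ≤ k + w
    · -- there is no further slice
      exact ⟨g, 𝓜.mono g1 e5, fun x hx1 _ => g2 x hx1 ((wt_le x).trans hn), g3⟩
    obtain ⟨h', h1, h2, h3⟩ := slice h (k + w + 1)
    have hcomp := 𝓜.comp (thr (n := n) (n - k - w)) (fun i => off g1 i)
    refine ⟨fun x => h' x || NW.thr (n - k - w) (fun i => g (NW.off i x)), ?_, ?_, ?_⟩
    · refine 𝓜.mono (𝓜.or h1 hcomp) ?_
      rw [← hB, ← hT]
      have e1 : E * (2 * T) * B = T * (E * B) + T * (E * B) := by ring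
      have e2 : B ≤ T * (E * B) := by
        calc B = 1 * (1 * B) := by ring
          _ ≤ T * (E * B) := Nat.mul_le_mul hT1 (Nat.mul_le_mul_right _ hE1)
      omega
    · intro x hx1 hx2
      show (h' x || decide (n - k - w ≤ wt (fun i => g (NW.off i x)))) = f x
      by_cases hxw : wt x ≤ k + w
      · -- an old slice
        rw [h3 x (by omega), Bool.false_or]
        cases hfx : f x with
        | true =>
          rw [decide_eq_true_eq]
          have h4 := wt_ge_zeros x (fun i => g (NW.off i x)) (fun i hi => by
            show g (NW.off i x) = true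
            rw [off_false hi, g2 x hx1 hxw, hfx])
          omega
        | false =>
          rw [decide_eq_false_iff_not]
          have h4 : wt (fun i => g (NW.off i x)) = 0 := by
            unfold wt
            rw [Finset.card_eq_zero, Finset.filter_eq_empty_iff]
            intro i _ hi
            have h6 : g (NW.off i x) = false := by
              by_cases hk : k ≤ wt (NW.off i x)
              · rw [g2 _ hk ((wt_off_le i x).trans hxw)]
                have := hf _ _ (off_le i x)
                rw [hfx] at this
                exact Bool.eq_false_of_le_false this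
              · exact g3 _ (by omega)
            have hi' : g (NW.off i x) = true := hi
            rw [h6] at hi'
            exact absurd hi' (by simp)
          omega
      · -- the new slice
        have hxe : wt x = k + w + 1 := by omega
        cases hfx : f x with
        | true => rw [h2 x hxe, hfx, Bool.true_or]
        | false =>
          rw [h2 x hxe, hfx, Bool.false_or, decide_eq_false_iff_not]
          have h4 := wt_le_zeros x (fun i => g (NW.off i x)) (fun i hi => by
            show g (NW.off i x) = false
            have h5 := wt_off_true hi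
            rw [g2 _ (by omega) (by omega)]
            have := hf _ _ (off_le i x)
            rw [hfx] at this
            exact Bool.eq_false_of_le_false this)
          omega
    · intro x hx
      show (h' x || decide (n - k - w ≤ wt (fun i => g (NW.off i x)))) = false
      rw [h3 x (by omega), Bool.false_or, decide_eq_false_iff_not]
      have h4 : wt (fun i => g (NW.off i x)) = 0 := by
        unfold wt
        rw [Finset.card_eq_zero, Finset.filter_eq_empty_iff]
        intro i _ hi
        have hi' : g (NW.off i x) = true := hi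
        rw [g3 _ (lt_of_le_of_lt (wt_off_le i x) hx)] at hi'
        exact absurd hi' (by simp)
      omega

end Model

end Pool.Agent.W953.NB
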