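import Mathlib
import Pool.Agent.W953.NB.Model

/-!
# Few tests on few slices
-/

set_option autoImplicit false

namespace Pool.Agent.W953.NB

open Pool.Agent.H540R2 Pool.Agent.H540R2.Circuit Pool.Agent.W953.NW

namespace Model

variable (𝓜 : Model) {n m : ℕ}

/-- functions computed by decision trees with at most `t` tests on every path; the tests and the
results are functions of the model; `s` bounds the total complexity plus the number of nodes -/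
inductive TA : ℕ → BF n → ℕ → Prop
  | out (t : ℕ) {f : BF n} {s s' : ℕ} (hf : 𝓜.K f s) (hs : s + 1 ≤ s') : TA t f s'
  | ask {t : ℕ} {q a b f : BF n} {s₀ s₁ s₂ s : ℕ} (hq : 𝓜.K q s₀) (ha : TA t a s₁)
      (hb : TA t b s₂) (hs : s₀ + s₁ + s₂ + 1 ≤ s)
      (hf : ∀ x, f x = if q x = true then a x else b x) : TA (t + 1) f s

variable {𝓜}

lemma TA.le {t : ℕ} {f : BF n} {s : ℕ} (h : 𝓜.TA t f s) : ∀ {t' s' : ℕ}, t ≤ t' → s ≤ s' →
    𝓜.TA t' f s' := by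
  induction h with
  | out t hf hs => exact fun _ h2 => TA.out _ hf (hs.trans h2)
  | @ask t q a b f s₀ s₁ s₂ s hq ha hb hs hf iha ihb =>
    intro t' s' ht hs'
    obtain ⟨t'', rfl⟩ : ∃ t'', t' = t'' + 1 := ⟨t' - 1, by omega⟩
    exact TA.ask hq (iha (by omega) le_rfl) (ihb (by omega) le_rfl) (hs.trans hs') hf

lemma TA.congr {t : ℕ} {f g : BF n} {s : ℕ} (h : 𝓜.TA t f s) (hg : ∀ x, f x = g x) :
    𝓜.TA t g s := by
  have : f = g := funext hg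
  rw [← this]
  exact h

/-- **Binary search for the window.** -/
theorem mux_from {f : BF n} {A : ℕ} (W : ℕ)
    (h : ∀ k, ∃ g : BF n, 𝓜.K g A ∧ ∀ x, k ≤ wt x → wt x < k + W → g x = f x) :
    ∀ r k₀ : ℕ, ∃ g : BF n, 𝓜.TA r g (2 ^ r * (A + 1) + (2 ^ r - 1) * (2 ^ tde n + 1)) ∧
      ∀ x, k₀ ≤ wt x → wt x < k₀ + W * 2 ^ r → g x = f x := by
  intro r
  induction r with
  | zero =>
    intro k₀
    obtain ⟨g, h1, h2⟩ := h k₀
    refine ⟨g, TA.out _ h1 (by simp), fun x hx1 hx2 => h2 x hx1 (by simpa using hx2)⟩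
  | succ r ih =>
    intro k₀
    obtain ⟨a, a1, a2⟩ := ih k₀
    obtain ⟨b, b1, b2⟩ := ih (k₀ + W * 2 ^ r)
    obtain ⟨P, hP⟩ : ∃ P, 2 ^ r = P + 1 := ⟨2 ^ r - 1, by
      have : 1 ≤ 2 ^ r := Nat.one_le_two_pow
      omega⟩
    refine ⟨fun x => if NW.thr (k₀ + W * 2 ^ r) x = true then b x else a x,
      TA.ask (thr (n := n) (k₀ + W * 2 ^ r)) b1 a1 ?_ (fun x => rfl), fun x hx1 hx2 => ?_⟩
    · rw [pow_succ, hP]
      have e1 : (P + 1) * 2 - 1 = 2 * P + 1 := by omega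
      rw [e1, Nat.add_sub_cancel]
      apply le_of_eq
      ring
    · have hW : W * 2 ^ (r + 1) = W * 2 ^ r + W * 2 ^ r := by rw [pow_succ]; ring
      show (if NW.thr (k₀ + W * 2 ^ r) x = true then b x else a x) = f x
      by_cases hc : k₀ + W * 2 ^ r ≤ wt x
      · rw [if_pos (by simpa [NW.thr] using hc)]
        exact b2 x hc (by omega)
      · rw [if_neg (by simpa [NW.thr] using hc)]
        exact a2 x hx1 (by omega)

/-- `t` tests on `(w + 1) 2 ^ t` slices -/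
theorem tests_windows {f : BF n} (hf : ∀ x y : Fin n → Bool, (∀ i, x i ≤ y i) → f x ≤ f y)
    {s : ℕ} (h : 𝓜.L f s) (k w t : ℕ) :
    ∃ g : BF n, 𝓜.TA t g (2 ^ t * (wsz n s w + 2 ^ tde n + 2)) ∧
      ∀ x, k ≤ wt x → wt x < k + (w + 1) * 2 ^ t → g x = f x := by
  obtain ⟨g, h1, h2⟩ := mux_from (𝓜 := 𝓜) (f := f) (A := wsz n s w) (w + 1) (fun k' => by
    obtain ⟨g, g1, g2, -⟩ := window_aux hf h k' w
    exact ⟨g, g1, fun x hx1 hx2 => g2 x hx1 (by omega)⟩) t k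
  refine ⟨g, h1.le le_rfl ?_, h2⟩
  have e1 : (2 ^ t - 1) * (2 ^ tde n + 1) ≤ 2 ^ t * (2 ^ tde n + 1) :=
    Nat.mul_le_mul_right _ (Nat.sub_le _ _)
  have e2 : 2 ^ t * (wsz n s w + 2 ^ tde n + 2) =
    2 ^ t * (wsz n s w + 1) + 2 ^ t * (2 ^ tde n + 1) := by ring
  omega

/-- **Few tests.** -/
theorem few_tests {f : BF n} (hf : ∀ x y : Fin n → Bool, (∀ i, x i ≤ y i) → f x ≤ f y)
    {s : ℕ} (h : 𝓜.L f s) (K : ℕ) :
    𝓜.TA (Nat.log 2 n - K) f (2 ^ Nat.log 2 n * (wsz n s (2 ^ (K + 1)) + 2 ^ tde n + 2)) := by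
  have hn : n < (2 ^ (K + 1) + 1) * 2 ^ (Nat.log 2 n - K) := by
    have h1 : n < 2 ^ (Nat.log 2 n + 1) := Nat.lt_pow_succ_log_self (by norm_num) n
    have h2 : 2 ^ (Nat.log 2 n + 1) ≤ 2 ^ (K + 1) * 2 ^ (Nat.log 2 n - K) := by
      rw [← pow_add]
      exact Nat.pow_le_pow_right (by norm_num) (by omega)
    have h3 : (2 ^ (K + 1) + 1) * 2 ^ (Nat.log 2 n - K) =
        2 ^ (K + 1) * 2 ^ (Nat.log 2 n - K) + 2 ^ (Nat.log 2 n - K) := by ring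
    have h4 : 0 < 2 ^ (Nat.log 2 n - K) := by positivity
    omega
  obtain ⟨g, h1, h2⟩ := tests_windows hf h 0 (2 ^ (K + 1)) (Nat.log 2 n - K)
  have h3 : g = f := funext fun x => h2 x (Nat.zero_le _) (by have := wt_le x; omega)
  rw [h3] at h1
  exact h1.le le_rfl (Nat.mul_le_mul_right _ (Nat.pow_le_pow_right (by norm_num) (Nat.sub_le _ _)))

/-! ### from trees to the literals -/

lemma L.mono' {f : BF n} {s t : ℕ} (h : 𝓜.L f s) (hst : s ≤ t) : 𝓜.L f t := by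
  obtain ⟨Q, h1, h2⟩ := h
  exact ⟨Q, 𝓜.mono h1 hst, h2⟩

lemma L.congr' {f g : BF n} {s : ℕ} (h : 𝓜.L f s) (hg : ∀ x, f x = g x) : 𝓜.L g s := by
  have : f = g := funext hg
  rw [← this]
  exact h

lemma L.of_K {f : BF n} {s : ℕ} (h : 𝓜.K f s) : 𝓜.L f s := by
  refine ⟨fun z => f (fun i => z (Fin.castAdd n i)),
    𝓜.mono (𝓜.comp h (fun i => 𝓜.var (Fin.castAdd n i))) (by omega), fun x => ?_⟩
  show f (fun i => lits x (Fin.castAdd n i)) = f x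
  congr 1
  funext i
  simp only [lits, Fin.append_left]

lemma L.not_var (i : Fin n) : 𝓜.L (fun x => !(x i)) 1 := by
  refine ⟨fun z => z (Fin.natAdd n i), 𝓜.var _, fun x => ?_⟩
  simp only [lits, Fin.append_right]

lemma L.and' {f g : BF n} {s t : ℕ} (hf : 𝓜.L f s) (hg : 𝓜.L g t) :
    𝓜.L (fun x => f x && g x) (s + t) := by
  obtain ⟨F, f1, f2⟩ := hf
  obtain ⟨G, g1, g2⟩ := hg
  exact ⟨_, 𝓜.and f1 g1, fun x => by rw [f2, g2]⟩

lemma L.or' {f g : BF n} {s t : ℕ} (hf : 𝓜.L f s) (hg : 𝓜.L g t) :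
    𝓜.L (fun x => f x || g x) (s + t) := by
  obtain ⟨F, f1, f2⟩ := hf
  obtain ⟨G, g1, g2⟩ := hg
  exact ⟨_, 𝓜.or f1 g1, fun x => by rw [f2, g2]⟩

lemma L.comp' {F : BF m} {s : ℕ} (hF : 𝓜.K F s) {g : Fin m → BF n} {t : ℕ}
    (hg : ∀ i, 𝓜.L (g i) t) : 𝓜.L (fun x => F (fun i => g i x)) (s * t) := by
  choose G g1 g2 using hg
  exact ⟨_, 𝓜.comp hF g1, fun x => by
    congr 1
    funext i
    exact g2 i x⟩

/-- the model is closed under complements (with negated variables) -/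
def Compl (𝓜 : Model) (c : ℕ) : Prop :=
  ∀ {n : ℕ} (f : BF n) (s : ℕ), 𝓜.K f s → 𝓜.L (fun x => !(f x)) ((s + 2) ^ c)

lemma add_pow_le' (a b c : ℕ) (hc : 1 ≤ c) : a ^ c + b ^ c ≤ (a + b) ^ c := by
  obtain ⟨d, rfl⟩ : ∃ d, c = d + 1 := ⟨c - 1, by omega⟩
  rw [pow_succ, pow_succ, pow_succ]
  have h1 : a ^ d ≤ (a + b) ^ d := Nat.pow_le_pow_left (by omega) d
  have h2 : b ^ d ≤ (a + b) ^ d := Nat.pow_le_pow_left (by omega) d
  calc a ^ d * a + b ^ d * b ≤ (a + b) ^ d * a + (a + b) ^ d * b :=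
        Nat.add_le_add (Nat.mul_le_mul_right _ h1) (Nat.mul_le_mul_right _ h2)
    _ = (a + b) ^ d * (a + b) := by ring

lemma TA.toL {c : ℕ} (hc : 1 ≤ c) (h𝓜 : 𝓜.Compl c) {t : ℕ} {f : BF n} {s : ℕ}
    (h : 𝓜.TA t f s) : 𝓜.L f (2 ^ (c + 1) * s ^ c) := by
  induction h with
  | out t hf hs =>
    refine (L.of_K hf).mono' ?_
    have h1 : 1 ≤ 2 ^ (c + 1) := Nat.one_le_two_pow
    rename_i f' s' s''
    calc s' ≤ s'' := by omega
      _ ≤ s'' ^ c := Nat.le_self_pow (by omega) _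
      _ ≤ 2 ^ (c + 1) * s'' ^ c := Nat.le_mul_of_pos_left _ (by positivity)
  | @ask t q a b f s₀ s₁ s₂ s hq ha hb hs hf iha ihb =>
    have h1 := ((L.of_K hq).and' iha).or' ((h𝓜 q s₀ hq).and' ihb)
    refine (h1.congr' (fun x => ?_)).mono' ?_
    · rw [hf]
      cases q x <;> simp
    · obtain ⟨u, hu⟩ : ∃ u, u = s₀ + 1 := ⟨_, rfl⟩
      have e1 : (s₀ + 2) ^ c ≤ 2 ^ c * u ^ c := by
        rw [← mul_pow]
        exact Nat.pow_le_pow_left (by omega) c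
      have e2 : s₀ ≤ 2 ^ c * u ^ c := by
        calc s₀ ≤ u := by omega
          _ ≤ u ^ c := Nat.le_self_pow (by omega) _
          _ ≤ 2 ^ c * u ^ c := Nat.le_mul_of_pos_left _ (by positivity)
      have e3 : s₁ ^ c + s₂ ^ c ≤ (s₁ + s₂) ^ c := add_pow_le' _ _ _ hc
      have e4 : u ^ c + (s₁ + s₂) ^ c ≤ (u + (s₁ + s₂)) ^ c := add_pow_le' _ _ _ hc
      have e5 : (u + (s₁ + s₂)) ^ c ≤ s ^ c := Nat.pow_le_pow_left (by omega) c
      have e6 : 2 ^ (c + 1) = 2 * 2 ^ c := by rw [pow_succ]; ring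
      calc s₀ + 2 ^ (c + 1) * s₁ ^ c + ((s₀ + 2) ^ c + 2 ^ (c + 1) * s₂ ^ c) ≤
          2 ^ (c + 1) * (u ^ c + (s₁ ^ c + s₂ ^ c)) := by
            rw [e6, Nat.mul_add, Nat.mul_add]
            have : 2 * 2 ^ c * u ^ c = 2 ^ c * u ^ c + 2 ^ c * u ^ c := by ring
            omega
        _ ≤ 2 ^ (c + 1) * s ^ c := Nat.mul_le_mul_left _ (by omega)

end Model

end Pool.Agent.W953.NB
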