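import Mathlib
import Pool.Agent.W953.NB.Trees
import Pool.Agent.W953.NW.Eqv

/-!
# Equivalences for a pair of models
-/

set_option autoImplicit false

namespace Pool.Agent.W953.NB

open Pool.Agent.H540R2 Pool.Agent.H540R2.Circuit Pool.Agent.W953.NW

variable {n m S : ℕ}

/-- the stronger model: `G f s`: complexity at most `s`; `M f s`: complexity at most `s` without
negations -/
structure Big where
  G : ∀ {n : ℕ}, BF n → ℕ → Prop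
  M : ∀ {n : ℕ}, BF n → ℕ → Prop
  toG : ∀ {n : ℕ} {f : BF n} {s : ℕ}, M f s → G f s
  incr : ∀ {n : ℕ} {f : BF n} {s : ℕ}, M f s → ∀ x y : Fin n → Bool, (∀ i, x i ≤ y i) → f x ≤ f y
  dual : ∀ {n : ℕ} {f : BF n} {s : ℕ}, G f s →
    ∃ F : BF (n + n), M F (2 * s) ∧ ∀ x, F (lits x) = f x

/-- the function is monotone -/
def Incr (f : BF n) : Prop := ∀ x y : Fin n → Bool, (∀ i, x i ≤ y i) → f x ≤ f y

/-- polynomial simulation -/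
def Poly (𝓐 : Model) (𝓑 : Big) : Prop :=
  ∃ c : ℕ, ∀ (S n : ℕ) (f : BF n), 2 ≤ S → n ≤ S → 𝓑.G f S → 𝓐.L f (S ^ c)

/-- `t` tests on `2 ^ t (w + 1)` slices -/
def Windows (𝓐 : Model) (𝓑 : Big) (w : ℕ) : Prop :=
  ∃ c : ℕ, ∀ (S n : ℕ) (f : BF n), 2 ≤ S → n ≤ S → 𝓑.G f S → Incr f →
    ∀ k t : ℕ, ∃ g : BF n, 𝓐.TA t g (S ^ c) ∧
      ∀ x, k ≤ wt x → wt x < k + 2 ^ t * (w + 1) → g x = f x

/-- `log n - K` tests -/
def Few (𝓐 : Model) (𝓑 : Big) (K : ℕ) : Prop :=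
  ∃ c : ℕ, ∀ (S n : ℕ) (f : BF n), 2 ≤ S → n ≤ S → 𝓑.G f S → Incr f →
    𝓐.TA (Nat.log 2 n - K) f (S ^ c)

/-- some number of tests on some number of slices -/
def Some' (𝓐 : Model) (𝓑 : Big) (t w : ℕ → ℕ) : Prop :=
  ∃ c : ℕ, ∀ (S n : ℕ) (f : BF n), 2 ≤ S → n ≤ S → 𝓑.M f S →
    ∀ k : ℕ, ∃ g : BF n, 𝓐.TA (t n) g (S ^ c) ∧
      ∀ x, k ≤ wt x → wt x ≤ k + w n → g x = f x

/-! ### numbers -/

lemma p_pow (hS : 2 ≤ S) {a b : ℕ} (h : a ≤ b) : S ^ a ≤ S ^ b :=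
  Nat.pow_le_pow_right (by omega) h

lemma p_two (hS : 2 ≤ S) (a : ℕ) : 2 ^ a ≤ S ^ a := Nat.pow_le_pow_left hS a

lemma p_add (hS : 2 ≤ S) {x y a : ℕ} (hx : x ≤ S ^ a) (hy : y ≤ S ^ a) : x + y ≤ S ^ (a + 1) := by
  have : 2 * S ^ a ≤ S * S ^ a := Nat.mul_le_mul_right _ hS
  rw [pow_succ']
  omega

lemma p_log (hS : 2 ≤ S) (hn : n ≤ S) : 2 ^ Nat.log 2 n ≤ S := by
  rcases Nat.eq_zero_or_pos n with h | h
  · subst h
    simp
    omega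
  · exact (Nat.pow_log_le_self 2 (by omega)).trans hn

lemma p_tde (hS : 2 ≤ S) (hn : n ≤ S) : 2 ^ tde n ≤ S ^ 30 := by
  unfold tde
  rw [pow_add, Nat.mul_comm 12, pow_mul]
  calc (2 ^ Nat.log 2 n) ^ 12 * 2 ^ 18 ≤ S ^ 12 * S ^ 18 :=
        Nat.mul_le_mul (Nat.pow_le_pow_left (p_log hS hn) 12) (p_two hS 18)
    _ = S ^ 30 := by rw [← pow_add]

lemma p_wsz (hS : 2 ≤ S) (hn : n ≤ S) {s c : ℕ} (hs : s ≤ S ^ c) (w : ℕ) :
    Model.wsz n s w ≤ S ^ (31 * w + (c + 31)) := by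
  unfold Model.wsz
  have h1 : 2 ^ (tde n + 1) ≤ S ^ 31 := by
    rw [pow_succ, pow_succ]
    exact Nat.mul_le_mul (p_tde hS hn) hS
  have h2 : s + 1 ≤ S ^ (c + 1) := p_add hS hs (Nat.one_le_pow _ _ (by omega))
  calc (2 ^ (tde n + 1)) ^ w * ((s + 1) * 2 ^ tde n) ≤ (S ^ 31) ^ w * (S ^ (c + 1) * S ^ 30) :=
        Nat.mul_le_mul (Nat.pow_le_pow_left h1 w) (Nat.mul_le_mul h2 (p_tde hS hn))
    _ = S ^ (31 * w + (c + 31)) := by
      rw [← pow_mul, ← pow_add, ← pow_add]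

lemma p_total (hS : 2 ≤ S) (hn : n ≤ S) {s c w P : ℕ} (hs : s ≤ S ^ c) (hP : P ≤ S ^ 2) :
    P * (Model.wsz n s w + 2 ^ tde n + 2) ≤ S ^ (31 * w + c + 35) := by
  have h1 := p_wsz hS hn hs w
  have h2 : 2 ^ tde n ≤ S ^ (31 * w + (c + 31)) := (p_tde hS hn).trans (p_pow hS (by omega))
  have h3 := p_add hS h1 h2
  have h4 : 2 ≤ S ^ (31 * w + (c + 31) + 1) :=
    hS.trans (Nat.le_self_pow (by omega) S)
  have h5 := p_add hS h3 h4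
  calc P * (Model.wsz n s w + 2 ^ tde n + 2) ≤ S ^ 2 * S ^ (31 * w + (c + 31) + 1 + 1) :=
        Nat.mul_le_mul hP h5
    _ = S ^ (31 * w + c + 35) := by rw [← pow_add]; congr 1; ring

variable {𝓐 : Model} {𝓑 : Big}

theorem windows_of_poly (h : Poly 𝓐 𝓑) (w : ℕ) : Windows 𝓐 𝓑 w := by
  obtain ⟨c, hc⟩ := h
  refine ⟨31 * w + c + 35, fun S n f hS hn hf hinc k t => ?_⟩
  have hL := hc S n f hS hn hf
  obtain ⟨T, hT⟩ : ∃ T, T = min t (Nat.log 2 n + 1) := ⟨_, rfl⟩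
  have hT1 : T ≤ t := by omega
  have hT2 : T ≤ Nat.log 2 n + 1 := by omega
  obtain ⟨g, h1, h2⟩ := Model.tests_windows hinc hL k w T
  have hP : 2 ^ T ≤ S ^ 2 := by
    refine (Nat.pow_le_pow_right (n := 2) (by norm_num) hT2).trans ?_
    rw [pow_succ, pow_two]
    exact Nat.mul_le_mul (p_log hS hn) hS
  refine ⟨g, h1.le hT1 (p_total hS hn le_rfl hP), fun x hx1 hx2 => h2 x hx1 ?_⟩
  rcases le_total t (Nat.log 2 n + 1) with h | h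
  · have : T = t := by omega
    rw [this, Nat.mul_comm]
    exact hx2
  · have hT3 : T = Nat.log 2 n + 1 := by omega
    have h5 : n < 2 ^ T := by
      rw [hT3]
      exact Nat.lt_pow_succ_log_self (by norm_num) n
    have h6 : 2 ^ T ≤ (w + 1) * 2 ^ T := Nat.le_mul_of_pos_left _ (Nat.succ_pos w)
    have h7 := wt_le x
    omega

theorem few_of_poly (h : Poly 𝓐 𝓑) (K : ℕ) : Few 𝓐 𝓑 K := by
  obtain ⟨c, hc⟩ := h
  refine ⟨31 * 2 ^ (K + 1) + c + 35, fun S n f hS hn hf hinc => ?_⟩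
  have hL := hc S n f hS hn hf
  refine (Model.few_tests hinc hL K).le le_rfl (p_total hS hn le_rfl ?_)
  exact (p_log hS hn).trans (Nat.le_self_pow (by norm_num) S)

theorem some_of_windows {w : ℕ} (h : Windows 𝓐 𝓑 w) : Some' 𝓐 𝓑 (fun _ => 0) (fun _ => 0) := by
  obtain ⟨c, hc⟩ := h
  refine ⟨c, fun S n f hS hn hf k => ?_⟩
  obtain ⟨g, h1, h2⟩ := hc S n f hS hn (𝓑.toG hf) (𝓑.incr hf) k 0
  refine ⟨g, h1, fun x hx1 hx2 => h2 x hx1 ?_⟩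
  have h5 : wt x ≤ k + 0 := hx2
  rw [pow_zero, one_mul]
  omega

theorem some_of_few {K : ℕ} (h : Few 𝓐 𝓑 K) :
    Some' 𝓐 𝓑 (fun n => Nat.log 2 n - K) (fun n => n) := by
  obtain ⟨c, hc⟩ := h
  exact ⟨c, fun S n f hS hn hf k => ⟨f, hc S n f hS hn (𝓑.toG hf) (𝓑.incr hf), fun _ _ _ => rfl⟩⟩

/-- double literals -/
lemma lits_lits (p : Fin ((n + n) + (n + n))) :
    ∃ q : Fin (n + n), ∀ x, lits (lits x) p = lits (n := n) x q := by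
  refine Fin.addCases (fun i => ?_) (fun i => ?_) p
  · refine ⟨i, fun x => ?_⟩
    simp only [lits, Fin.append_left]
  · refine Fin.addCases (fun j => ?_) (fun j => ?_) i
    · refine ⟨Fin.natAdd n j, fun x => ?_⟩
      simp only [lits, Fin.append_left, Fin.append_right]
    · refine ⟨Fin.castAdd n j, fun x => ?_⟩
      simp only [lits, Fin.append_left, Fin.append_right, Bool.not_not]

theorem poly_of_some {c : ℕ} (hc1 : 1 ≤ c) (h𝓐 : 𝓐.Compl c) {t w : ℕ → ℕ}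
    (h : Some' 𝓐 𝓑 t w) : Poly 𝓐 𝓑 := by
  obtain ⟨d, hd⟩ := h
  refine ⟨c + 1 + 2 * d * c, fun S n f hS hn hf => ?_⟩
  obtain ⟨F, hF, hFf⟩ := 𝓑.dual hf
  obtain ⟨g, h1, h2⟩ := hd (2 * S) (n + n) F (by omega) (by omega) hF n
  obtain ⟨Q, hQ, hQg⟩ := h1.toL hc1 h𝓐
  choose σ hσ using fun p => lits_lits (n := n) p
  refine ⟨fun y => Q (fun p => y (σ p)),
    𝓐.mono (𝓐.comp hQ (fun p => 𝓐.var (σ p))) ?_, fun x => ?_⟩
  · have e1 : 2 ^ (c + 1) ≤ S ^ (c + 1) := p_two hS _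
    have e2 : ((2 * S) ^ d) ^ c ≤ S ^ (2 * d * c) := by
      have : 2 * S ≤ S ^ 2 := by rw [pow_two]; exact Nat.mul_le_mul_right _ hS
      calc ((2 * S) ^ d) ^ c ≤ ((S ^ 2) ^ d) ^ c :=
            Nat.pow_le_pow_left (Nat.pow_le_pow_left this d) c
        _ = S ^ (2 * d * c) := by rw [← pow_mul, ← pow_mul, Nat.mul_assoc]
    rw [mul_one, pow_add (a := S) (m := c + 1)]
    exact Nat.mul_le_mul e1 e2
  · have h3 : (fun p => lits x (σ p)) = lits (lits x) := funext fun p => (hσ p x).symm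
    show Q (fun p => lits x (σ p)) = f x
    rw [h3, hQg, h2 (lits x) (wt_lits x).ge (by rw [wt_lits]; omega), hFf]

/-- **The equivalences.** -/
theorem tfae {c : ℕ} (hc1 : 1 ≤ c) (h𝓐 : 𝓐.Compl c) :
    List.TFAE [Poly 𝓐 𝓑, ∀ w : ℕ, Windows 𝓐 𝓑 w, ∀ K : ℕ, Few 𝓐 𝓑 K,
      ∃ t w : ℕ → ℕ, Some' 𝓐 𝓑 t w] := by
  tfae_have 1 → 2 := fun h w => windows_of_poly h w
  tfae_have 1 → 3 := fun h K => few_of_poly h K
  tfae_have 2 → 4 := fun h => ⟨_, _, some_of_windows (h 0)⟩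
  tfae_have 3 → 4 := fun h => ⟨_, _, some_of_few (h 0)⟩
  tfae_have 4 → 1 := fun ⟨_, _, h⟩ => poly_of_some hc1 h𝓐 h
  tfae_finish

end Pool.Agent.W953.NB
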