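import Mathlib
import Pool.Agent.W953.NB.Tfae

/-!
# Equivalences for a pair of models, quasi-polynomial version
-/

set_option autoImplicit false

namespace Pool.Agent.W953.NB

open Pool.Agent.H540R2 Pool.Agent.H540R2.Circuit Pool.Agent.W953.NW

variable {n m S : ℕ}

/-- `log S + 1` -/
def ls (S : ℕ) : ℕ := Nat.log 2 S + 1

/-- `2 ^ (log S + 1) ^ c` -/
def qb (c S : ℕ) : ℕ := 2 ^ ls S ^ c

/-- quasi-polynomial simulation -/
def QPoly (𝓐 : Model) (𝓑 : Big) : Prop :=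
  ∃ c : ℕ, ∀ (S n : ℕ) (f : BF n), 2 ≤ S → n ≤ S → 𝓑.G f S → 𝓐.L f (qb c S)

/-- `t` tests on `2 ^ t (log S + 1) ^ a` slices -/
def QWindows (𝓐 : Model) (𝓑 : Big) (a : ℕ) : Prop :=
  ∃ c : ℕ, ∀ (S n : ℕ) (f : BF n), 2 ≤ S → n ≤ S → 𝓑.G f S → Incr f →
    ∀ k t : ℕ, ∃ g : BF n, 𝓐.TA t g (qb c S) ∧
      ∀ x, k ≤ wt x → wt x < k + 2 ^ t * ls S ^ a → g x = f x

/-- `log n - a log log n` tests -/
def QFew (𝓐 : Model) (𝓑 : Big) (a : ℕ) : Prop :=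
  ∃ c : ℕ, ∀ (S n : ℕ) (f : BF n), 2 ≤ S → n ≤ S → 𝓑.G f S → Incr f →
    𝓐.TA (Nat.log 2 n - a * Nat.log 2 (Nat.log 2 n)) f (qb c S)

/-- some number of tests on some number of slices -/
def QSome (𝓐 : Model) (𝓑 : Big) (t w : ℕ → ℕ) : Prop :=
  ∃ c : ℕ, ∀ (S n : ℕ) (f : BF n), 2 ≤ S → n ≤ S → 𝓑.M f S →
    ∀ k : ℕ, ∃ g : BF n, 𝓐.TA (t n) g (qb c S) ∧
      ∀ x, k ≤ wt x → wt x ≤ k + w n → g x = f x

/-! ### numbers -/

lemma ls_two (hS : 2 ≤ S) : 2 ≤ ls S := by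
  have : 1 ≤ Nat.log 2 S := Nat.log_pos (by norm_num) hS
  unfold ls
  omega

lemma S_le_ls (S : ℕ) : S ≤ 2 ^ ls S := (Nat.lt_pow_succ_log_self (by norm_num) S).le

lemma q_pow (hS : 2 ≤ S) {a b : ℕ} (h : a ≤ b) : ls S ^ a ≤ ls S ^ b :=
  Nat.pow_le_pow_right (by have := ls_two hS; omega) h

lemma q_const (hS : 2 ≤ S) {K k a : ℕ} (hK : K ≤ 2 ^ k) : K * ls S ^ a ≤ ls S ^ (a + k) := by
  rw [pow_add, Nat.mul_comm (ls S ^ a)]
  exact Nat.mul_le_mul_right _ (hK.trans (Nat.pow_le_pow_left (ls_two hS) k))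

lemma q_add (hS : 2 ≤ S) {x y a : ℕ} (hx : x ≤ ls S ^ a) (hy : y ≤ ls S ^ a) :
    x + y ≤ ls S ^ (a + 1) := by
  have : 2 * ls S ^ a ≤ ls S ^ (a + 1) := q_const hS (by norm_num)
  omega

lemma q_tde (hS : 2 ≤ S) (hn : n ≤ S) : 2 ^ tde n ≤ 2 ^ (30 * ls S) := by
  refine (p_tde hS hn).trans ?_
  rw [Nat.mul_comm 30, pow_mul]
  exact Nat.pow_le_pow_left (S_le_ls S) 30

lemma q_wsz (hS : 2 ≤ S) (hn : n ≤ S) {s c : ℕ} (hs : s ≤ qb c S) (w : ℕ) :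
    Model.wsz n s w ≤ 2 ^ (31 * ls S * w + (ls S ^ c + 1 + 30 * ls S)) := by
  unfold Model.wsz
  have h0 := ls_two hS
  have h1 : 2 ^ (tde n + 1) ≤ 2 ^ (31 * ls S) := by
    rw [pow_succ]
    calc 2 ^ tde n * 2 ≤ 2 ^ (30 * ls S) * 2 := Nat.mul_le_mul_right _ (q_tde hS hn)
      _ = 2 ^ (30 * ls S + 1) := by rw [pow_succ]
      _ ≤ 2 ^ (31 * ls S) := Nat.pow_le_pow_right (by norm_num) (by omega)
  have h2 : s + 1 ≤ 2 ^ (ls S ^ c + 1) := by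
    unfold qb at hs
    have : 1 ≤ 2 ^ ls S ^ c := Nat.one_le_two_pow
    rw [pow_succ]
    omega
  calc (2 ^ (tde n + 1)) ^ w * ((s + 1) * 2 ^ tde n) ≤
      (2 ^ (31 * ls S)) ^ w * (2 ^ (ls S ^ c + 1) * 2 ^ (30 * ls S)) :=
        Nat.mul_le_mul (Nat.pow_le_pow_left h1 w) (Nat.mul_le_mul h2 (q_tde hS hn))
    _ = 2 ^ (31 * ls S * w + (ls S ^ c + 1 + 30 * ls S)) := by
      rw [← pow_mul, ← pow_add, ← pow_add]

lemma q_total (hS : 2 ≤ S) (hn : n ≤ S) {s c w a P : ℕ} (hs : s ≤ qb c S) (hP : P ≤ 2 ^ ls S)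
    (hw : w ≤ ls S ^ a) :
    P * (Model.wsz n s w + 2 ^ tde n + 2) ≤ qb (a + c + 10) S := by
  have h0 := ls_two hS
  have h1 := q_wsz hS hn hs w
  obtain ⟨E, hE⟩ : ∃ E, E = 31 * ls S * w + (ls S ^ c + 1 + 30 * ls S) := ⟨_, rfl⟩
  rw [← hE] at h1
  have h2 : 2 ^ tde n ≤ 2 ^ E := (q_tde hS hn).trans
    (Nat.pow_le_pow_right (by norm_num) (by rw [hE]; omega))
  have h3 : 2 ≤ 2 ^ E := by
    calc 2 = 2 ^ 1 := by norm_num
      _ ≤ 2 ^ E := Nat.pow_le_pow_right (by norm_num) (by rw [hE]; omega)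
  have h4 : Model.wsz n s w + 2 ^ tde n + 2 ≤ 2 ^ (E + 2) := by
    have : 2 ^ (E + 2) = 4 * 2 ^ E := by ring
    omega
  have e1 : 31 * ls S * w ≤ ls S ^ (a + c + 7) := by
    calc 31 * ls S * w ≤ 31 * ls S * ls S ^ a := Nat.mul_le_mul_left _ hw
      _ = 31 * ls S ^ (a + 1) := by ring
      _ ≤ ls S ^ (a + 1 + 5) := q_const hS (by norm_num)
      _ ≤ ls S ^ (a + c + 7) := q_pow hS (by omega)
  have e2 : ls S ^ c ≤ ls S ^ (a + c + 7) := q_pow hS (by omega)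
  have e3 : 34 * ls S ≤ ls S ^ (a + c + 7) := by
    calc 34 * ls S = 34 * ls S ^ 1 := by rw [pow_one]
      _ ≤ ls S ^ (1 + 6) := q_const hS (by norm_num)
      _ ≤ ls S ^ (a + c + 7) := q_pow hS (by omega)
  calc P * (Model.wsz n s w + 2 ^ tde n + 2) ≤ 2 ^ ls S * 2 ^ (E + 2) := Nat.mul_le_mul hP h4
    _ = 2 ^ (ls S + (E + 2)) := by rw [← pow_add]
    _ ≤ 2 ^ ls S ^ (a + c + 10) := by
      apply Nat.pow_le_pow_right (by norm_num)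
      calc ls S + (E + 2) ≤ 31 * ls S * w + ls S ^ c + 34 * ls S := by rw [hE]; omega
        _ ≤ 4 * ls S ^ (a + c + 7) := by omega
        _ ≤ ls S ^ (a + c + 7 + 2) := q_const hS (by norm_num)
        _ ≤ ls S ^ (a + c + 10) := q_pow hS (by omega)

lemma ls_log (hn : n ≤ S) : Nat.log 2 n + 1 ≤ ls S := by
  unfold ls
  have : Nat.log 2 n ≤ Nat.log 2 S := Nat.log_mono_right hn
  omega

variable {𝓐 : Model} {𝓑 : Big}

theorem qwindows_of_poly (h : QPoly 𝓐 𝓑) (a : ℕ) : QWindows 𝓐 𝓑 a := by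
  obtain ⟨c, hc⟩ := h
  refine ⟨a + c + 10, fun S n f hS hn hf hinc k t => ?_⟩
  have hL := hc S n f hS hn hf
  have h0 := ls_two hS
  obtain ⟨T, hT⟩ : ∃ T, T = min t (Nat.log 2 n + 1) := ⟨_, rfl⟩
  have hT1 : T ≤ t := by omega
  have hT2 : T ≤ Nat.log 2 n + 1 := by omega
  have hw1 : 1 ≤ ls S ^ a := Nat.one_le_pow _ _ (by omega)
  obtain ⟨w, hw⟩ : ∃ w, ls S ^ a = w + 1 := ⟨ls S ^ a - 1, by omega⟩
  obtain ⟨g, h1, h2⟩ := Model.tests_windows hinc hL k w T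
  have hP : 2 ^ T ≤ 2 ^ ls S :=
    Nat.pow_le_pow_right (by norm_num) (hT2.trans (ls_log hn))
  refine ⟨g, h1.le hT1 (q_total hS hn le_rfl hP (by omega)), fun x hx1 hx2 => h2 x hx1 ?_⟩
  rw [← hw, Nat.mul_comm]
  rcases le_total t (Nat.log 2 n + 1) with h | h
  · have : T = t := by omega
    rw [this]
    exact hx2
  · have hT3 : T = Nat.log 2 n + 1 := by omega
    have h5 : n < 2 ^ T := by
      rw [hT3]
      exact Nat.lt_pow_succ_log_self (by norm_num) n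
    have h6 : 2 ^ T ≤ 2 ^ T * ls S ^ a := Nat.le_mul_of_pos_right _ hw1
    have h7 := wt_le x
    omega

theorem qfew_of_windows (h : ∀ a, QWindows 𝓐 𝓑 a) (a : ℕ) : QFew 𝓐 𝓑 a := by
  obtain ⟨c, hc⟩ := h (a + 1)
  refine ⟨c, fun S n f hS hn hf hinc => ?_⟩
  have h0 := ls_two hS
  obtain ⟨g, h1, h2⟩ := hc S n f hS hn hf hinc 0 (Nat.log 2 n - a * Nat.log 2 (Nat.log 2 n))
  have hW : n < 2 ^ (Nat.log 2 n - a * Nat.log 2 (Nat.log 2 n)) * ls S ^ (a + 1) := by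
    have e1 : n < 2 ^ (Nat.log 2 n + 1) := Nat.lt_pow_succ_log_self (by norm_num) n
    have e2 : 2 ^ Nat.log 2 n ≤ 2 ^ (Nat.log 2 n - a * Nat.log 2 (Nat.log 2 n)) *
        2 ^ (a * Nat.log 2 (Nat.log 2 n)) := by
      rw [← pow_add]
      exact Nat.pow_le_pow_right (by norm_num) (by omega)
    have e3 : 2 ^ (a * Nat.log 2 (Nat.log 2 n)) * 2 ≤ ls S ^ (a + 1) := by
      rw [pow_succ]
      refine Nat.mul_le_mul ?_ h0
      rw [Nat.mul_comm a, pow_mul]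
      refine Nat.pow_le_pow_left ?_ a
      rcases Nat.eq_zero_or_pos (Nat.log 2 n) with h3 | h3
      · rw [h3]
        simp
        omega
      · exact (Nat.pow_log_le_self 2 (by omega)).trans (by have := ls_log hn; omega)
    calc n < 2 ^ (Nat.log 2 n + 1) := e1
      _ = 2 ^ Nat.log 2 n * 2 := by rw [pow_succ]
      _ ≤ 2 ^ (Nat.log 2 n - a * Nat.log 2 (Nat.log 2 n)) *
        2 ^ (a * Nat.log 2 (Nat.log 2 n)) * 2 := Nat.mul_le_mul_right _ e2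
      _ = 2 ^ (Nat.log 2 n - a * Nat.log 2 (Nat.log 2 n)) *
        (2 ^ (a * Nat.log 2 (Nat.log 2 n)) * 2) := by rw [Nat.mul_assoc]
      _ ≤ _ := Nat.mul_le_mul_left _ e3
  have h3 : g = f := funext fun x => h2 x (Nat.zero_le _) (by have := wt_le x; omega)
  rw [h3] at h1
  exact h1

theorem qsome_of_windows {a : ℕ} (h : QWindows 𝓐 𝓑 a) :
    QSome 𝓐 𝓑 (fun _ => 0) (fun _ => 0) := by
  obtain ⟨c, hc⟩ := h
  refine ⟨c, fun S n f hS hn hf k => ?_⟩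
  obtain ⟨g, h1, h2⟩ := hc S n f hS hn (𝓑.toG hf) (𝓑.incr hf) k 0
  refine ⟨g, h1, fun x hx1 hx2 => h2 x hx1 ?_⟩
  have h5 : wt x ≤ k + 0 := hx2
  have h6 : 1 ≤ ls S ^ a := Nat.one_le_pow _ _ (by have := ls_two hS; omega)
  rw [pow_zero, one_mul]
  omega

theorem qsome_of_few {a : ℕ} (h : QFew 𝓐 𝓑 a) :
    QSome 𝓐 𝓑 (fun n => Nat.log 2 n - a * Nat.log 2 (Nat.log 2 n)) (fun n => n) := by
  obtain ⟨c, hc⟩ := h
  exact ⟨c, fun S n f hS hn hf k => ⟨f, hc S n f hS hn (𝓑.toG hf) (𝓑.incr hf), fun _ _ _ => rfl⟩⟩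

theorem qpoly_of_some {c : ℕ} (hc1 : 1 ≤ c) (h𝓐 : 𝓐.Compl c) {t w : ℕ → ℕ}
    (h : QSome 𝓐 𝓑 t w) : QPoly 𝓐 𝓑 := by
  obtain ⟨d, hd⟩ := h
  refine ⟨2 * d + c + 3, fun S n f hS hn hf => ?_⟩
  have h0 := ls_two hS
  obtain ⟨F, hF, hFf⟩ := 𝓑.dual hf
  obtain ⟨g, h1, h2⟩ := hd (2 * S) (n + n) F (by omega) (by omega) hF n
  obtain ⟨Q, hQ, hQg⟩ := h1.toL hc1 h𝓐
  choose σ hσ using fun p => lits_lits (n := n) p
  refine ⟨fun y => Q (fun p => y (σ p)),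
    𝓐.mono (𝓐.comp hQ (fun p => 𝓐.var (σ p))) ?_, fun x => ?_⟩
  · have e0 : ls (2 * S) = ls S + 1 := by
      unfold ls
      rw [Nat.mul_comm, Nat.log_mul_base (by norm_num) (by omega)]
    have e1 : qb d (2 * S) ≤ 2 ^ ls S ^ (2 * d) := by
      unfold qb
      apply Nat.pow_le_pow_right (by norm_num)
      rw [e0, pow_mul]
      refine Nat.pow_le_pow_left ?_ d
      calc ls S + 1 ≤ ls S + ls S := by omega
        _ = 2 * ls S := by ring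
        _ ≤ ls S * ls S := Nat.mul_le_mul_right _ h0
        _ = ls S ^ 2 := by rw [pow_two]
    rw [mul_one]
    have e2 : c + 1 ≤ ls S ^ (c + 1) := by
      calc c + 1 ≤ 2 ^ (c + 1) := Nat.lt_two_pow_self.le
        _ ≤ ls S ^ (c + 1) := Nat.pow_le_pow_left h0 _
    have e3 : ls S ^ (2 * d) * c ≤ ls S ^ (2 * d + c + 1) := by
      calc ls S ^ (2 * d) * c ≤ ls S ^ (2 * d) * ls S ^ (c + 1) :=
            Nat.mul_le_mul_left _ (by omega)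
        _ = ls S ^ (2 * d + c + 1) := by rw [← pow_add]; congr 1
    calc 2 ^ (c + 1) * qb d (2 * S) ^ c ≤ 2 ^ (c + 1) * (2 ^ ls S ^ (2 * d)) ^ c :=
          Nat.mul_le_mul_left _ (Nat.pow_le_pow_left e1 c)
      _ = 2 ^ (c + 1 + ls S ^ (2 * d) * c) := by rw [← pow_mul, ← pow_add]
      _ ≤ 2 ^ ls S ^ (2 * d + c + 3) := by
        apply Nat.pow_le_pow_right (by norm_num)
        refine (q_add hS (a := 2 * d + c + 1) (e2.trans (q_pow hS (by omega))) e3).trans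
          (q_pow hS (by omega))
  · have h3 : (fun p => lits x (σ p)) = lits (lits x) := funext fun p => (hσ p x).symm
    show Q (fun p => lits x (σ p)) = f x
    rw [h3, hQg, h2 (lits x) (wt_lits x).ge (by rw [wt_lits]; omega), hFf]

/-- **The equivalences.** -/
theorem qtfae {c : ℕ} (hc1 : 1 ≤ c) (h𝓐 : 𝓐.Compl c) :
    List.TFAE [QPoly 𝓐 𝓑, ∀ a : ℕ, QWindows 𝓐 𝓑 a, ∀ a : ℕ, QFew 𝓐 𝓑 a,
      ∃ t w : ℕ → ℕ, QSome 𝓐 𝓑 t w] := by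
  tfae_have 1 → 2 := fun h a => qwindows_of_poly h a
  tfae_have 2 → 3 := fun h a => qfew_of_windows h a
  tfae_have 3 → 4 := fun h => ⟨_, _, qsome_of_few (h 0)⟩
  tfae_have 4 → 1 := fun ⟨_, _, h⟩ => qpoly_of_some hc1 h𝓐 h
  tfae_finish

end Pool.Agent.W953.NB
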