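import Mathlib
import Pool.Agent.W953.SP.Net
import Pool.Agent.W953.NB.Tfae

/-!
# The model of undirected networks
-/

set_option autoImplicit false

namespace Pool.Agent.W953.SP.Net

open Relation

variable {I J : Type}

/-- the free edges of the substituted network -/
inductive SubFree (N : Net I) (M : I → Net J) :
    N.V ⊕ (Σ e : Fin N.size, (M (N.lab e)).V) → N.V ⊕ (Σ e : Fin N.size, (M (N.lab e)).V) → Prop
  | free (u v : N.V) : N.free u v → SubFree N M (Sum.inl u) (Sum.inl v)
  | fst (e : Fin N.size) : SubFree N M (Sum.inl (N.fst e)) (Sum.inr ⟨e, (M (N.lab e)).src⟩)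
  | snd (e : Fin N.size) : SubFree N M (Sum.inr ⟨e, (M (N.lab e)).snk⟩) (Sum.inl (N.snd e))
  | inner (e : Fin N.size) (u v : (M (N.lab e)).V) : (M (N.lab e)).free u v →
      SubFree N M (Sum.inr ⟨e, u⟩) (Sum.inr ⟨e, v⟩)

/-- the numbering of the edges -/
def sig (N : Net I) (M : I → Net J) : Fin (∑ e : Fin N.size, (M (N.lab e)).size) ≃
    (Σ e : Fin N.size, Fin (M (N.lab e)).size) := finSigmaFinEquiv.symm

/-- every labelled edge is replaced by a network -/
def subst (N : Net I) (M : I → Net J) : Net J where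
  V := N.V ⊕ (Σ e : Fin N.size, (M (N.lab e)).V)
  src := Sum.inl N.src
  snk := Sum.inl N.snk
  free := SubFree N M
  size := ∑ e : Fin N.size, (M (N.lab e)).size
  lab r := (M (N.lab (sig N M r).1)).lab (sig N M r).2
  fst r := Sum.inr ⟨(sig N M r).1, (M (N.lab (sig N M r).1)).fst (sig N M r).2⟩
  snd r := Sum.inr ⟨(sig N M r).1, (M (N.lab (sig N M r).1)).snd (sig N M r).2⟩

/-- edges of the substituted network -/
lemma subst_on (N : Net I) (M : I → Net J) (y : J → Bool)
    (a b : N.V ⊕ (Σ e : Fin N.size, (M (N.lab e)).V)) :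
    (N.subst M).On y a b ↔ SubFree N M a b ∨
      ∃ (e : Fin N.size) (r : Fin (M (N.lab e)).size), y ((M (N.lab e)).lab r) = true ∧
        Sum.inr ⟨e, (M (N.lab e)).fst r⟩ = a ∧ Sum.inr ⟨e, (M (N.lab e)).snd r⟩ = b := by
  constructor
  · rintro (h | ⟨p, h1, h2, h3⟩)
    · exact Or.inl h
    · exact Or.inr ⟨(sig N M p).1, (sig N M p).2, h1, h2, h3⟩
  · rintro (h | ⟨e, r, h1, h2, h3⟩)
    · exact Or.inl h
    · right
      obtain ⟨p, hp⟩ := (sig N M).surjective ⟨e, r⟩
      refine ⟨p, ?_, ?_, ?_⟩
      · show y ((M (N.lab (sig N M p).1)).lab (sig N M p).2) = true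
        rw [hp]
        exact h1
      · rw [← h2]
        have : (N.subst M).fst p = Sum.inr ⟨(sig N M p).1,
          (M (N.lab (sig N M p).1)).fst (sig N M p).2⟩ := rfl
        rw [this, hp]
      · rw [← h3]
        have : (N.subst M).snd p = Sum.inr ⟨(sig N M p).1,
          (M (N.lab (sig N M p).1)).snd (sig N M p).2⟩ := rfl
        rw [this, hp]

open Classical in
theorem subst_acc (N : Net I) (M : I → Net J) (y : J → Bool) :
    (N.subst M).Acc y ↔ N.Acc (fun i => decide ((M i).Acc y)) := by
  constructor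
  · intro h
    set x : I → Bool := fun i => decide ((M i).Acc y) with hx
    let rep : N.V ⊕ (Σ e : Fin N.size, (M (N.lab e)).V) → Option N.V := fun a =>
      match a with
      | Sum.inl v => some v
      | Sum.inr ⟨e, v⟩ => if EqvGen ((M (N.lab e)).On y) (M (N.lab e)).src v then some (N.fst e)
          else if EqvGen ((M (N.lab e)).On y) (M (N.lab e)).snk v then some (N.snd e) else none
    let Q : Option N.V → Option N.V → Prop := fun a b =>
      a = b ∨ ∃ u v, a = some u ∧ b = some v ∧ EqvGen (N.On x) u v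
    have hQs : ∀ a b, Q a b → Q b a := by
      rintro a b (h | ⟨u, v, h1, h2, h3⟩)
      · exact Or.inl h.symm
      · exact Or.inr ⟨v, u, h2, h1, EqvGen.symm _ _ h3⟩
    have hQt : ∀ a b c, Q a b → Q b c → Q a c := by
      rintro a b c (h | ⟨u, v, h1, h2, h3⟩) (h' | ⟨u', v', h1', h2', h3'⟩)
      · exact Or.inl (h.trans h')
      · exact Or.inr ⟨u', v', h.trans h1', h2', h3'⟩
      · exact Or.inr ⟨u, v, h1, h'.symm.trans h2, h3⟩
      · have : v = u' := by
          rw [h2] at h1'
          exact Option.some.inj h1'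
        subst this
        exact Or.inr ⟨u, v', h1, h2', EqvGen.trans _ _ _ h3 h3'⟩
    have hinner : ∀ (e : Fin N.size) (u v : (M (N.lab e)).V), (M (N.lab e)).On y u v →
        rep (Sum.inr ⟨e, u⟩) = rep (Sum.inr ⟨e, v⟩) := by
      intro e u v huv
      have e1 : EqvGen ((M (N.lab e)).On y) (M (N.lab e)).src u ↔
          EqvGen ((M (N.lab e)).On y) (M (N.lab e)).src v :=
        ⟨fun h => EqvGen.trans _ _ _ h (EqvGen.rel _ _ huv),
          fun h => EqvGen.trans _ _ _ h (EqvGen.symm _ _ (EqvGen.rel _ _ huv))⟩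
      have e2 : EqvGen ((M (N.lab e)).On y) (M (N.lab e)).snk u ↔
          EqvGen ((M (N.lab e)).On y) (M (N.lab e)).snk v :=
        ⟨fun h => EqvGen.trans _ _ _ h (EqvGen.rel _ _ huv),
          fun h => EqvGen.trans _ _ _ h (EqvGen.symm _ _ (EqvGen.rel _ _ huv))⟩
      show (if _ then _ else if _ then _ else _) = (if _ then _ else if _ then _ else _)
      simp only [e1, e2]
    have hstep : ∀ a b, (N.subst M).On y a b → Q (rep a) (rep b) := by
      intro a b hab
      rcases (subst_on _ _ _ _ _).mp hab with hab | ⟨e, r, h1, rfl, rfl⟩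
      · cases hab with
        | free u v h => exact Or.inr ⟨u, v, rfl, rfl, EqvGen.rel _ _ (Or.inl h)⟩
        | fst e =>
          left
          show some (N.fst e) = (if _ then _ else if _ then _ else _)
          rw [if_pos (EqvGen.refl _)]
        | snd e =>
          show Q (if _ then _ else if _ then _ else _) (some (N.snd e))
          by_cases hacc : EqvGen ((M (N.lab e)).On y) (M (N.lab e)).src (M (N.lab e)).snk
          · rw [if_pos hacc]
            refine Or.inr ⟨_, _, rfl, rfl, EqvGen.rel _ _ (Or.inr ⟨e, ?_, rfl, rfl⟩)⟩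
            simp only [hx, decide_eq_true_eq]
            exact hacc
          · rw [if_neg hacc, if_pos (EqvGen.refl _)]
            exact Or.inl rfl
        | inner e u v h => exact Or.inl (hinner e u v (Or.inl h))
      · exact Or.inl (hinner e _ _ (Or.inr ⟨r, h1, rfl, rfl⟩))
    have hall : ∀ a b, EqvGen ((N.subst M).On y) a b → Q (rep a) (rep b) := by
      intro a b hab
      induction hab with
      | rel a b h => exact hstep a b h
      | refl a => exact Or.inl rfl
      | symm a b _ ih => exact hQs _ _ ih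
      | trans a b c _ _ ih1 ih2 => exact hQt _ _ _ ih1 ih2
    rcases hall _ _ h with h1 | ⟨u, v, h1, h2, h3⟩
    · have : N.src = N.snk := Option.some.inj h1
      unfold Acc
      rw [this]
      exact EqvGen.refl _
    · have e1 : N.src = u := Option.some.inj h1
      have e2 : N.snk = v := Option.some.inj h2
      unfold Acc
      rw [e1, e2]
      exact h3
  · intro h
    have hin : ∀ (e : Fin N.size) (u v : (M (N.lab e)).V), EqvGen ((M (N.lab e)).On y) u v →
        EqvGen ((N.subst M).On y) (Sum.inr ⟨e, u⟩) (Sum.inr ⟨e, v⟩) := by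
      intro e u v huv
      induction huv with
      | rel a b h =>
        refine EqvGen.rel _ _ ((subst_on _ _ _ _ _).mpr ?_)
        rcases h with h | ⟨r, h1, rfl, rfl⟩
        · exact Or.inl (SubFree.inner e _ _ h)
        · exact Or.inr ⟨e, r, h1, rfl, rfl⟩
      | refl a => exact EqvGen.refl _
      | symm a b _ ih => exact EqvGen.symm _ _ ih
      | trans a b c _ _ ih1 ih2 => exact EqvGen.trans _ _ _ ih1 ih2
    have hout : ∀ u v : N.V, EqvGen (N.On (fun i => decide ((M i).Acc y))) u v →
        EqvGen ((N.subst M).On y) (Sum.inl u) (Sum.inl v) := by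
      intro u v huv
      induction huv with
      | rel a b h =>
        rcases h with h | ⟨e, h1, rfl, rfl⟩
        · exact EqvGen.rel _ _ ((subst_on _ _ _ _ _).mpr (Or.inl (SubFree.free _ _ h)))
        · rw [decide_eq_true_eq] at h1
          refine EqvGen.trans _ _ _ (EqvGen.rel _ _ ((subst_on _ _ _ _ _).mpr
            (Or.inl (SubFree.fst e)))) ?_
          refine EqvGen.trans _ _ _ (hin e _ _ h1) ?_
          exact EqvGen.rel _ _ ((subst_on _ _ _ _ _).mpr (Or.inl (SubFree.snd e)))
      | refl a => exact EqvGen.refl _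
      | symm a b _ ih => exact EqvGen.symm _ _ ih
      | trans a b c _ _ ih1 ih2 => exact EqvGen.trans _ _ _ ih1 ih2
    exact hout _ _ h

end Pool.Agent.W953.SP.Net
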