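import Mathlib
import Pool.Agent.W953.NB.Und

/-!
# Undirected networks are closed under complement (Nisan, Ta-Shma)
-/

set_option autoImplicit false

namespace Pool.Agent.W953.NB

open Relation Pool.Agent.H540R2 Pool.Agent.W953.NW Pool.Agent.W953.SP

lemma dec_eq {p : Prop} {b : Bool} (h : p ↔ b = true) :
    @decide p (Classical.propDecidable _) = b := by
  rw [Bool.eq_iff_iff, ← h]
  exact @decide_eq_true_iff p (Classical.propDecidable _)

/-! ### the model -/

lemma Net.not_acc {I : Type} {N : Net I} {x : I → Bool} (φ : N.V → Prop)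
    (h : ∀ a b, N.On x a b → (φ a ↔ φ b)) (h1 : φ N.src) (h2 : ¬ φ N.snk) : ¬ N.Acc x := by
  intro hacc
  have key : ∀ a b, EqvGen (N.On x) a b → (φ a ↔ φ b) := by
    intro a b hab
    induction hab with
    | rel a b hab => exact h a b hab
    | refl a => exact Iff.rfl
    | symm a b _ ih => exact ih.symm
    | trans a b c _ _ ih1 ih2 => exact ih1.trans ih2
  exact h2 ((key _ _ hacc).mp h1)

/-- one edge -/
def varNet {n : ℕ} (i : Fin n) : Net (Fin n) where
  V := Bool
  src := false
  snk := true
  free := fun _ _ => False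
  size := 1
  lab := fun _ => i
  fst := fun _ => false
  snd := fun _ => true

lemma varNet_acc {n : ℕ} (i : Fin n) (x : Fin n → Bool) : (varNet i).Acc x ↔ x i = true := by
  constructor
  · intro h
    by_contra hx
    refine Net.not_acc (N := varNet i) (x := x) (fun a => a = false) ?_ rfl (by simp [varNet]) h
    rintro a b (h | ⟨e, h1, -, -⟩)
    · exact h.elim
    · exact absurd h1 hx
  · intro h
    exact EqvGen.rel _ _ (Or.inr ⟨(0 : Fin 1), h, rfl, rfl⟩)

/-- no labelled edge -/
def constNet {n : ℕ} (b : Bool) : Net (Fin n) where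
  V := Bool
  src := false
  snk := true
  free := fun _ _ => b = true
  size := 0
  lab := Fin.elim0
  fst := Fin.elim0
  snd := Fin.elim0

lemma constNet_acc {n : ℕ} (b : Bool) (x : Fin n → Bool) :
    (constNet (n := n) b).Acc x ↔ b = true := by
  constructor
  · intro h
    by_contra hb
    refine Net.not_acc (N := constNet (n := n) b) (x := x) (fun a => a = false) ?_ rfl
      (by simp [constNet]) h
    rintro a b' (h | ⟨e, -⟩)
    · exact absurd h hb
    · exact e.elim0
  · intro h
    exact EqvGen.rel _ _ (Or.inl h)

/-- two edges in parallel -/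
def orNet : Net (Fin 2) where
  V := Bool
  src := false
  snk := true
  free := fun _ _ => False
  size := 2
  lab := id
  fst := fun _ => false
  snd := fun _ => true

lemma orNet_acc (x : Fin 2 → Bool) : orNet.Acc x ↔ x 0 = true ∨ x 1 = true := by
  constructor
  · intro h
    by_contra hx
    push Not at hx
    refine Net.not_acc (N := orNet) (x := x) (fun a => a = false) ?_ rfl (by simp [orNet]) h
    rintro a b (h | ⟨e, h1, -, -⟩)
    · exact h.elim
    · have h1' : x e = true := h1
      fin_cases e
      · exact absurd h1' hx.1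
      · exact absurd h1' hx.2
  · rintro (h | h)
    · exact EqvGen.rel _ _ (Or.inr ⟨(0 : Fin 2), h, rfl, rfl⟩)
    · exact EqvGen.rel _ _ (Or.inr ⟨(1 : Fin 2), h, rfl, rfl⟩)

/-- two edges in series -/
def andNet : Net (Fin 2) where
  V := Fin 3
  src := 0
  snk := 2
  free := fun _ _ => False
  size := 2
  lab := id
  fst := fun e => Fin.castSucc e
  snd := fun e => Fin.succ e

lemma andNet_acc (x : Fin 2 → Bool) : andNet.Acc x ↔ x 0 = true ∧ x 1 = true := by
  constructor
  · intro h
    constructor
    · by_contra hx
      refine Net.not_acc (N := andNet) (x := x) (fun a => a = (0 : Fin 3)) ?_ rfl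
        (by simp [andNet]) h
      rintro a b (h | ⟨e, h1, rfl, rfl⟩)
      · exact h.elim
      · have h1' : x e = true := h1
        fin_cases e
        · exact absurd h1' hx
        · simp [andNet]
    · by_contra hx
      refine Net.not_acc (N := andNet) (x := x) (fun a => a ≠ (2 : Fin 3)) ?_
        (by simp [andNet]) (by simp [andNet]) h
      rintro a b (h | ⟨e, h1, rfl, rfl⟩)
      · exact h.elim
      · have h1' : x e = true := h1
        fin_cases e
        · simp [andNet]
        · exact absurd h1' hx
  · rintro ⟨h1, h2⟩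
    refine EqvGen.trans _ (1 : Fin 3) _ (EqvGen.rel _ _ (Or.inr ⟨(0 : Fin 2), h1, rfl, rfl⟩))
      (EqvGen.rel _ _ (Or.inr ⟨(1 : Fin 2), h2, rfl, rfl⟩))

/-- complexity: the number of labelled edges of a monotone undirected network -/
def undK {n : ℕ} (f : BF n) (s : ℕ) : Prop :=
  ∃ N : Net (Fin n), N.size ≤ s ∧ ∀ x, N.Acc x ↔ f x = true

lemma undK_two {n : ℕ} (A : Net (Fin 2)) (F : BF 2)
    (hA : ∀ x, A.Acc x ↔ F x = true) (hlab : ∀ M : Fin 2 → Net (Fin n),
      ∑ e : Fin A.size, (M (A.lab e)).size = (M 0).size + (M 1).size)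
    {f g : BF n} {s t : ℕ} (hf : undK f s) (hg : undK g t) :
    undK (fun x => F (fun i => if i = 0 then f x else g x)) (s + t) := by
  obtain ⟨M, h1, h2⟩ := hf
  obtain ⟨N, h3, h4⟩ := hg
  refine ⟨A.subst (fun i => if i = 0 then M else N), ?_, fun x => ?_⟩
  · have := hlab (fun i => if i = 0 then M else N)
    show ∑ e : Fin A.size, _ ≤ _
    rw [this]
    simp only [if_true, one_ne_zero, if_false]
    omega
  · rw [SP.Net.subst_acc, hA]
    have : (fun i : Fin 2 => @decide ((if i = 0 then M else N).Acc x) (Classical.propDecidable _)) =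
        fun i => if i = 0 then f x else g x := by
      funext i
      apply dec_eq
      by_cases hi : i = 0
      · rw [if_pos hi, if_pos hi]
        exact h2 x
      · rw [if_neg hi, if_neg hi]
        exact h4 x
    rw [this]

/-- the model of undirected networks -/
def und : Model where
  K := undK
  mono := fun ⟨N, h1, h2⟩ h => ⟨N, h1.trans h, h2⟩
  var := fun i => ⟨varNet i, le_rfl, varNet_acc i⟩
  const := fun b => ⟨constNet b, Nat.zero_le _, constNet_acc b⟩
  and := fun {n f g s t} hf hg => by
    have := undK_two (n := n) andNet (fun z => z 0 && z 1) (fun x => by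
      rw [andNet_acc, Bool.and_eq_true]) (fun M => by
      show ∑ e : Fin 2, (M e).size = _
      rw [Fin.sum_univ_two]) hf hg
    simpa using this
  or := fun {n f g s t} hf hg => by
    have := undK_two (n := n) orNet (fun z => z 0 || z 1) (fun x => by
      rw [orNet_acc, Bool.or_eq_true]) (fun M => by
      show ∑ e : Fin 2, (M e).size = _
      rw [Fin.sum_univ_two]) hf hg
    simpa using this
  comp := fun {m n F s} ⟨N, h1, h2⟩ {g t} hg => by
    choose M hM1 hM2 using hg
    refine ⟨N.subst M, ?_, fun x => ?_⟩
    · show ∑ e : Fin N.size, (M (N.lab e)).size ≤ s * t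
      calc ∑ e : Fin N.size, (M (N.lab e)).size ≤ ∑ e : Fin N.size, t :=
            Finset.sum_le_sum (fun e _ => hM1 _)
        _ = N.size * t := by simp
        _ ≤ s * t := Nat.mul_le_mul_right _ h1
    · rw [SP.Net.subst_acc, h2]
      have : (fun i => @decide ((M i).Acc x) (Classical.propDecidable _)) = fun i => g i x := by
        funext i
        exact dec_eq (hM2 i x)
      rw [this]

end Pool.Agent.W953.NB
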