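import Mathlib
import Pool.Agent.W953.NB.UndModel

/-!
# Undirected networks are closed under complement (Nisan, Ta-Shma)
-/

set_option autoImplicit false

namespace Pool.Agent.W953.NB

open Relation Finset Pool.Agent.H540R2 Pool.Agent.W953.NW Pool.Agent.W953.SP

/-! ### joining two classes -/

open Classical in
/-- the elements that are equivalent to a smaller element -/
noncomputable def small {m : ℕ} (R : Fin m → Fin m → Prop) : Finset (Fin m) :=
  univ.filter (fun p => ∃ q < p, R q p)

lemma join_aux {m : ℕ} {R R' : Fin m → Fin m → Prop} (hR : Equivalence R) (p₀ q₀ μ ν : Fin m)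
    (hμ : R μ p₀) (hν : R ν q₀) (hμm : ∀ p, R p p₀ → μ ≤ p) (hνm : ∀ p, R p q₀ → ν ≤ p)
    (hlt : μ < ν)
    (hR' : ∀ p q, R' p q ↔ R p q ∨ (R p p₀ ∧ R q₀ q) ∨ (R p q₀ ∧ R p₀ q)) :
    (small R').card = (small R).card + 1 := by
  classical
  have hν2 : ν ∉ small R := by
    unfold small
    rw [mem_filter]
    rintro ⟨-, q, hq, hqν⟩
    have := hνm q (hR.trans hqν hν)
    exact absurd hq (not_lt.mpr this)
  have : small R' = insert ν (small R) := by
    ext p
    unfold small
    simp only [mem_insert, mem_filter, mem_univ, true_and]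
    constructor
    · rintro ⟨q, hq, h⟩
      rw [hR'] at h
      rcases h with h | ⟨h1, h2⟩ | ⟨h1, h2⟩
      · exact Or.inr ⟨q, hq, h⟩
      · have h3 := hνm p (hR.symm h2)
        rcases lt_or_eq_of_le h3 with h4 | h4
        · exact Or.inr ⟨ν, h4, hR.trans hν h2⟩
        · exact Or.inl h4.symm
      · have h3 := hμm p (hR.symm h2)
        rcases lt_or_eq_of_le h3 with h4 | h4
        · exact Or.inr ⟨μ, h4, hR.trans hμ h2⟩
        · have h5 := hνm q h1
          have h6 : q < μ := by rw [h4]; exact hq
          exact absurd (lt_trans h6 hlt) (not_lt.mpr h5)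
    · rintro (rfl | ⟨q, hq, h⟩)
      · exact ⟨μ, hlt, (hR' _ _).mpr (Or.inr (Or.inl ⟨hμ, hR.symm hν⟩))⟩
      · exact ⟨q, hq, (hR' _ _).mpr (Or.inl h)⟩
  rw [this, card_insert_of_notMem hν2]

lemma exists_min {m : ℕ} {R : Fin m → Fin m → Prop} (hR : Equivalence R) (p₀ : Fin m) :
    ∃ μ, R μ p₀ ∧ ∀ p, R p p₀ → μ ≤ p := by
  classical
  have hne : (univ.filter (fun p => R p p₀)).Nonempty := ⟨p₀, by simp [hR.refl p₀]⟩
  refine ⟨(univ.filter (fun p => R p p₀)).min' hne, ?_, fun p hp => ?_⟩
  · have := Finset.min'_mem _ hne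
    exact (mem_filter.mp this).2
  · exact Finset.min'_le (univ.filter (fun p => R p p₀)) p (mem_filter.mpr ⟨mem_univ _, hp⟩)

theorem join_card {m : ℕ} {R R' : Fin m → Fin m → Prop} (hR : Equivalence R) (p₀ q₀ : Fin m)
    (h0 : ¬ R p₀ q₀)
    (hR' : ∀ p q, R' p q ↔ R p q ∨ (R p p₀ ∧ R q₀ q) ∨ (R p q₀ ∧ R p₀ q)) :
    (small R').card = (small R).card + 1 := by
  obtain ⟨μ, hμ, hμm⟩ := exists_min hR p₀
  obtain ⟨ν, hν, hνm⟩ := exists_min hR q₀
  rcases lt_trichotomy μ ν with h | h | h
  · exact join_aux hR p₀ q₀ μ ν hμ hν hμm hνm h hR'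
  · subst h
    exact absurd (hR.trans (hR.symm hμ) hν) h0
  · refine join_aux hR q₀ p₀ ν μ hν hμ hνm hμm h (fun p q => ?_)
    rw [hR']
    tauto

/-! ### the stages of a network -/

section

variable {n : ℕ} (N : Net (Fin n)) (x : Fin n → Bool)

/-- the edges that are on and have numbers less than `i` -/
def OnLt (i : ℕ) (a b : N.V) : Prop :=
  N.free a b ∨ ∃ e : Fin N.size, e.val < i ∧ x (N.lab e) = true ∧ N.fst e = a ∧ N.snd e = b

/-- connectivity -/
def RLt (i : ℕ) : N.V → N.V → Prop := EqvGen (OnLt N x i)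

lemma RLt_equiv (i : ℕ) : Equivalence (RLt N x i) := EqvGen.is_equivalence _

lemma RLt_size (a b : N.V) : RLt N x N.size a b ↔ EqvGen (N.On x) a b := by
  have : OnLt N x N.size = N.On x := by
    funext a b
    apply propext
    constructor
    · rintro (h | ⟨e, -, h⟩)
      · exact Or.inl h
      · exact Or.inr ⟨e, h⟩
    · rintro (h | ⟨e, h⟩)
      · exact Or.inl h
      · exact Or.inr ⟨e, e.isLt, h⟩
  unfold RLt
  rw [this]

lemma RLt_zero (x' : Fin n → Bool) (a b : N.V) : RLt N x 0 a b ↔ RLt N x' 0 a b := by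
  have : OnLt N x 0 = OnLt N x' 0 := by
    funext a b
    apply propext
    constructor
    · rintro (h | ⟨e, h, -⟩)
      · exact Or.inl h
      · exact absurd h (Nat.not_lt_zero _)
    · rintro (h | ⟨e, h, -⟩)
      · exact Or.inl h
      · exact absurd h (Nat.not_lt_zero _)
  unfold RLt
  rw [this]

lemma RLt_mono {i j : ℕ} (hij : i ≤ j) {a b : N.V} (h : RLt N x i a b) : RLt N x j a b := by
  refine EqvGen.mono ?_ _ _ h
  rintro a b (h | ⟨e, h1, h2⟩)
  · exact Or.inl h
  · exact Or.inr ⟨e, by omega, h2⟩

lemma RLt_succ_off (i : ℕ) (hi : i < N.size) (hx : x (N.lab ⟨i, hi⟩) = false) (a b : N.V) :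
    RLt N x (i + 1) a b ↔ RLt N x i a b := by
  have : OnLt N x (i + 1) = OnLt N x i := by
    funext a b
    apply propext
    constructor
    · rintro (h | ⟨e, h1, h2, h3⟩)
      · exact Or.inl h
      · refine Or.inr ⟨e, ?_, h2, h3⟩
        by_contra hcon
        have : e = ⟨i, hi⟩ := Fin.ext (by simp only; omega)
        rw [this, hx] at h2
        exact absurd h2 (by simp)
    · rintro (h | ⟨e, h1, h2⟩)
      · exact Or.inl h
      · exact Or.inr ⟨e, by omega, h2⟩
  unfold RLt
  rw [this]

lemma RLt_succ_on (i : ℕ) (hi : i < N.size) (hx : x (N.lab ⟨i, hi⟩) = true) (a b : N.V) :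
    RLt N x (i + 1) a b ↔ RLt N x i a b ∨
      (RLt N x i a (N.fst ⟨i, hi⟩) ∧ RLt N x i (N.snd ⟨i, hi⟩) b) ∨
      (RLt N x i a (N.snd ⟨i, hi⟩) ∧ RLt N x i (N.fst ⟨i, hi⟩) b) := by
  have hE := RLt_equiv N x i
  have hE' := RLt_equiv N x (i + 1)
  have hedge : RLt N x (i + 1) (N.fst ⟨i, hi⟩) (N.snd ⟨i, hi⟩) :=
    EqvGen.rel _ _ (Or.inr ⟨⟨i, hi⟩, Nat.lt_succ_self _, hx, rfl, rfl⟩)
  have hle : ∀ {a b}, RLt N x i a b → RLt N x (i + 1) a b := fun h =>
    RLt_mono N x (Nat.le_succ i) h
  constructor
  · intro h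
    induction h with
    | rel a b h =>
      rcases h with h | ⟨e, h1, h2, rfl, rfl⟩
      · exact Or.inl (EqvGen.rel _ _ (Or.inl h))
      · by_cases he : e.val < i
        · exact Or.inl (EqvGen.rel _ _ (Or.inr ⟨e, he, h2, rfl, rfl⟩))
        · have : e = ⟨i, hi⟩ := Fin.ext (by simp only; omega)
          subst this
          exact Or.inr (Or.inl ⟨hE.refl _, hE.refl _⟩)
    | refl a => exact Or.inl (hE.refl a)
    | symm a b _ ih =>
      rcases ih with h | ⟨h1, h2⟩ | ⟨h1, h2⟩
      · exact Or.inl (hE.symm h)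
      · exact Or.inr (Or.inr ⟨hE.symm h2, hE.symm h1⟩)
      · exact Or.inr (Or.inl ⟨hE.symm h2, hE.symm h1⟩)
    | trans a b c _ _ ih1 ih2 =>
      rcases ih1 with h | ⟨h1, h2⟩ | ⟨h1, h2⟩ <;> rcases ih2 with h' | ⟨h1', h2'⟩ | ⟨h1', h2'⟩
      · exact Or.inl (hE.trans h h')
      · exact Or.inr (Or.inl ⟨hE.trans h h1', h2'⟩)
      · exact Or.inr (Or.inr ⟨hE.trans h h1', h2'⟩)
      · exact Or.inr (Or.inl ⟨h1, hE.trans h2 h'⟩)
      · exact Or.inr (Or.inl ⟨h1, h2'⟩)
      · exact Or.inl (hE.trans h1 h2')
      · exact Or.inr (Or.inr ⟨h1, hE.trans h2 h'⟩)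
      · exact Or.inl (hE.trans h1 h2')
      · exact Or.inr (Or.inr ⟨h1, h2'⟩)
  · rintro (h | ⟨h1, h2⟩ | ⟨h1, h2⟩)
    · exact hle h
    · exact hE'.trans (hle h1) (hE'.trans hedge (hle h2))
    · exact hE'.trans (hle h1) (hE'.trans (hE'.symm hedge) (hle h2))

/-- the nodes that matter: start, end, and the ends of the edges -/
def node (p : Fin (2 * N.size + 2)) : N.V :=
  if p.val = 0 then N.src else if p.val = 1 then N.snk else
    if h : (p.val - 2) / 2 < N.size then
      (if p.val % 2 = 0 then N.fst ⟨(p.val - 2) / 2, h⟩ else N.snd ⟨(p.val - 2) / 2, h⟩)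
    else N.src

/-- number of an end of an edge -/
def fstN (e : Fin N.size) : Fin (2 * N.size + 2) := ⟨2 * e.val + 2, by have := e.isLt; omega⟩

/-- number of an end of an edge -/
def sndN (e : Fin N.size) : Fin (2 * N.size + 2) := ⟨2 * e.val + 3, by have := e.isLt; omega⟩

lemma node_fst (e : Fin N.size) : node N (fstN N e) = N.fst e := by
  unfold node fstN
  have h1 : (2 * e.val + 2 - 2) / 2 = e.val := by omega
  have h2 : (2 * e.val + 2) % 2 = 0 := by omega
  have := e.isLt
  simp only [h2, if_true]
  rw [if_neg (by omega), if_neg (by omega), dif_pos (by omega)]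
  congr 1
  exact Fin.ext h1

lemma node_snd (e : Fin N.size) : node N (sndN N e) = N.snd e := by
  unfold node sndN
  have h1 : (2 * e.val + 3 - 2) / 2 = e.val := by omega
  have h2 : ¬ (2 * e.val + 3) % 2 = 0 := by omega
  have := e.isLt
  simp only [h2, if_false]
  rw [if_neg (by omega), if_neg (by omega), dif_pos (by omega)]
  congr 1
  exact Fin.ext h1

/-- connectivity of the numbers -/
def RN (i : ℕ) (p q : Fin (2 * N.size + 2)) : Prop := RLt N x i (node N p) (node N q)

lemma RN_equiv (i : ℕ) : Equivalence (RN N x i) :=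
  ⟨fun _ => (RLt_equiv N x i).refl _, fun h => (RLt_equiv N x i).symm h,
    fun h h' => (RLt_equiv N x i).trans h h'⟩

open Classical in
/-- the useless edges -/
noncomputable def useless : Finset (Fin N.size) :=
  univ.filter (fun j => x (N.lab j) = false ∨ RLt N x j.val (N.fst j) (N.snd j))

open Classical in
lemma stage (i : ℕ) (hi : i ≤ N.size) :
    (small (RN N x i)).card + ((useless N x).filter (fun j => j.val < i)).card =
      (small (RN N x 0)).card + i := by
  induction i with
  | zero =>
    have : (useless N x).filter (fun j => j.val < 0) = ∅ := by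
      rw [filter_eq_empty_iff]
      intro j _
      exact Nat.not_lt_zero _
    rw [this]; simp
  | succ i ih =>
    have ih' := ih (by omega)
    have hi' : i < N.size := by omega
    have hfil : ∀ (_ : (⟨i, hi'⟩ : Fin N.size) ∈ useless N x),
        ((useless N x).filter (fun j => j.val < i + 1)).card =
        ((useless N x).filter (fun j => j.val < i)).card + 1 := by
      intro hmem
      have : (useless N x).filter (fun j => j.val < i + 1) =
          insert ⟨i, hi'⟩ ((useless N x).filter (fun j => j.val < i)) := by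
        ext j
        simp only [mem_insert, mem_filter]
        constructor
        · rintro ⟨h1, h2⟩
          by_cases h3 : j.val < i
          · exact Or.inr ⟨h1, h3⟩
          · left
            exact Fin.ext (by simp only; omega)
        · rintro (rfl | ⟨h1, h2⟩)
          · exact ⟨hmem, Nat.lt_succ_self _⟩
          · exact ⟨h1, by omega⟩
      rw [this, card_insert_of_notMem]
      simp
    by_cases hx : x (N.lab ⟨i, hi'⟩) = true
    · by_cases hc : RLt N x i (N.fst ⟨i, hi'⟩) (N.snd ⟨i, hi'⟩)
      · have hmem : (⟨i, hi'⟩ : Fin N.size) ∈ useless N x := by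
          unfold useless
          rw [mem_filter]
          exact ⟨mem_univ _, Or.inr hc⟩
        have hE := RLt_equiv N x i
        have hR : RN N x (i + 1) = RN N x i := by
          funext p q
          apply propext
          unfold RN
          rw [RLt_succ_on N x i hi' hx]
          constructor
          · rintro (h | ⟨h1, h2⟩ | ⟨h1, h2⟩)
            · exact h
            · exact hE.trans h1 (hE.trans hc h2)
            · exact hE.trans h1 (hE.trans (hE.symm hc) h2)
          · exact Or.inl
        rw [hR, hfil hmem]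
        omega
      · have hnot : (⟨i, hi'⟩ : Fin N.size) ∉ useless N x := by
          unfold useless
          rw [mem_filter]
          rintro ⟨-, h | h⟩
          · rw [hx] at h
            exact absurd h (by simp)
          · exact hc h
        have hfil2 : (useless N x).filter (fun j => j.val < i + 1) =
            (useless N x).filter (fun j => j.val < i) := by
          ext j
          simp only [mem_filter]
          constructor
          · rintro ⟨h1, h2⟩
            refine ⟨h1, ?_⟩
            by_contra h3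
            have : j = ⟨i, hi'⟩ := Fin.ext (by simp only; omega)
            rw [this] at h1
            exact hnot h1
          · rintro ⟨h1, h2⟩
            exact ⟨h1, by omega⟩
        have hjoin := join_card (RN_equiv N x i) (fstN N ⟨i, hi'⟩) (sndN N ⟨i, hi'⟩)
          (R' := RN N x (i + 1)) (by
            unfold RN
            rw [node_fst, node_snd]
            exact hc) (fun p q => by
            unfold RN
            rw [node_fst, node_snd]
            exact RLt_succ_on N x i hi' hx _ _)
        rw [hfil2, hjoin]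
        omega
    · rw [Bool.not_eq_true] at hx
      have hmem : (⟨i, hi'⟩ : Fin N.size) ∈ useless N x := by
        unfold useless
        rw [mem_filter]
        exact ⟨mem_univ _, Or.inl hx⟩
      have hR : RN N x (i + 1) = RN N x i := by
        funext p q
        exact propext (RLt_succ_off N x i hi' hx _ _)
      rw [hR, hfil hmem]
      omega

theorem total : (small (RN N x N.size)).card + (useless N x).card =
    (small (RN N (fun _ => false) 0)).card + N.size := by
  classical
  have h1 := stage N x N.size le_rfl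
  have h2 : (useless N x).filter (fun j => j.val < N.size) = useless N x :=
    filter_true_of_mem (fun j _ => j.isLt)
  have h3 : RN N x 0 = RN N (fun _ => false) 0 := by
    funext p q
    exact propext (RLt_zero N x _ _ _)
  rw [h2, h3] at h1
  exact h1

/-- the network that tests connectivity by the edges with numbers less than `i` -/
def btw (i : ℕ) (a b : N.V) : Net (Fin n) where
  V := N.V
  src := a
  snk := b
  free := N.free
  size := N.size
  lab := N.lab
  fst := fun e => if e.val < i then N.fst e else N.src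
  snd := fun e => if e.val < i then N.snd e else N.src

lemma btw_acc (i : ℕ) (a b : N.V) : (btw N i a b).Acc x ↔ RLt N x i a b := by
  have h1 : ∀ u v : N.V, (btw N i a b).On x u v → RLt N x i u v := by
    rintro u v (h | ⟨e, h1, h2, h3⟩)
    · exact EqvGen.rel _ _ (Or.inl h)
    · have h2' : (if e.val < i then N.fst e else N.src) = u := h2
      have h3' : (if e.val < i then N.snd e else N.src) = v := h3
      by_cases he : e.val < i
      · rw [if_pos he] at h2' h3'
        exact EqvGen.rel _ _ (Or.inr ⟨e, he, h1, h2', h3'⟩)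
      · rw [if_neg he] at h2' h3'
        rw [← h2', ← h3']
        exact EqvGen.refl _
  have h2 : ∀ u v : N.V, OnLt N x i u v → (btw N i a b).On x u v := by
    rintro u v (h | ⟨e, he, h1, h2, h3⟩)
    · exact Or.inl h
    · refine Or.inr ⟨e, h1, ?_, ?_⟩
      · show (if e.val < i then N.fst e else N.src) = u
        rw [if_pos he]
        exact h2
      · show (if e.val < i then N.snd e else N.src) = v
        rw [if_pos he]
        exact h3
  constructor
  · intro h
    have key : ∀ u v : N.V, EqvGen ((btw N i a b).On x) u v → RLt N x i u v := by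
      intro u v huv
      induction huv with
      | rel u v h => exact h1 u v h
      | refl u => exact EqvGen.refl _
      | symm u v _ ih => exact EqvGen.symm _ _ ih
      | trans u v w _ _ ih1 ih2 => exact EqvGen.trans _ _ _ ih1 ih2
    exact key _ _ h
  · intro h
    exact EqvGen.mono h2 _ _ h

open Classical in
lemma btw_K (i : ℕ) (a b : N.V) : und.K (fun x => decide (RLt N x i a b)) N.size :=
  ⟨btw N i a b, le_rfl, fun x => by
    rw [btw_acc, decide_eq_true_iff]⟩

end

/-- disjunctions -/
lemma any_K {n m s : ℕ} (𝓜 : Model) {g : Fin m → BF n} (hg : ∀ i, 𝓜.K (g i) s) :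
    𝓜.K (fun x => decide (∃ i, g i x = true)) (2 ^ tde m * s) := by
  refine 𝓜.congr (𝓜.comp (Model.thr (𝓜 := 𝓜) (n := m) 1) hg) (fun x => ?_)
  unfold thr wt
  rw [decide_eq_decide]
  rw [Nat.one_le_iff_ne_zero, Ne, Finset.card_eq_zero, Finset.filter_eq_empty_iff]
  push Not
  simp

lemma any_L {n m s : ℕ} (𝓜 : Model) {g : Fin m → BF n} (hg : ∀ i, 𝓜.L (g i) s) :
    𝓜.L (fun x => decide (∃ i, g i x = true)) (2 ^ tde m * s) := by
  refine (Model.L.comp' (Model.thr (𝓜 := 𝓜) (n := m) 1) hg).congr' (fun x => ?_)
  unfold thr wt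
  rw [decide_eq_decide]
  rw [Nat.one_le_iff_ne_zero, Ne, Finset.card_eq_zero, Finset.filter_eq_empty_iff]
  push Not
  simp

/-- **Complement.** -/
theorem und_compl : und.Compl 183 := by
  classical
  rintro n f s ⟨N, hN, hNf⟩
  obtain ⟨m, hm⟩ : ∃ m, m = 2 * N.size + 2 := ⟨_, rfl⟩
  obtain ⟨Z, hZ⟩ : ∃ Z, Z = N.size + 2 := ⟨_, rfl⟩
  have hZ2 : 2 ≤ Z := by omega
  have hZZ : 2 ≤ Z ^ 2 := hZ2.trans (Nat.le_self_pow (by norm_num) Z)
  have hmZ : m + 1 ≤ Z ^ 2 := by
    rw [hm, hZ]
    have : (N.size + 2) ^ 2 = N.size * N.size + 4 * N.size + 4 := by ring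
    omega
  have hT : ∀ k ≤ Z ^ 2, 2 ^ tde k ≤ Z ^ 60 := by
    intro k hk
    refine (p_tde hZZ hk).trans (le_of_eq ?_)
    rw [← pow_mul]
  -- the elements that are equivalent to a smaller one, except the end
  let a : Fin (2 * N.size + 2) → BF n := fun p x =>
    decide (∃ q : Fin (2 * N.size + 2),
      (decide (q < p ∧ p.val ≠ 1) && decide (RLt N x N.size (node N q) (node N p))) = true)
  have ha : ∀ p, und.K (a p) (Z ^ 60 * Z) := by
    intro p
    refine und.mono (any_K und (s := Z) (g := fun (q : Fin (2 * N.size + 2)) x =>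
      decide (q < p ∧ p.val ≠ 1) && decide (RLt N x N.size (node N q) (node N p)))
      (fun q => ?_)) (Nat.mul_le_mul_right _ (hT _ (by omega)))
    exact und.mono (und.and (und.const (decide (q < p ∧ p.val ≠ 1)))
      (btw_K N N.size (node N q) (node N p))) (by omega)
  -- the useless edges
  let b : Fin N.size → BF n := fun j x =>
    (!(x (N.lab j)) || decide (RLt N x j.val (N.fst j) (N.snd j)))
  have hb : ∀ j, und.L (b j) Z := by
    intro j
    exact ((Model.L.not_var (𝓜 := und) (N.lab j)).or'
      (Model.L.of_K (btw_K N j.val (N.fst j) (N.snd j)))).mono' (by omega)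
  obtain ⟨c₀, hc₀⟩ : ∃ c₀, c₀ = (small (RN N (fun _ => false) 0)).card := ⟨_, rfl⟩
  let h : Fin (m + 1) → BF n := fun j x =>
    (thr j.val (fun p => a p x) && thr (c₀ + N.size - j.val) (fun e => b e x))
  have hh : ∀ j, und.L (h j) (Z ^ 123) := by
    intro j
    refine ((Model.L.of_K (und.comp (Model.thr (𝓜 := und) j.val) ha)).and'
      (Model.L.comp' (Model.thr (𝓜 := und) (c₀ + N.size - j.val)) hb)).mono' ?_
    have e1 : 2 ^ tde (2 * N.size + 2) * (Z ^ 60 * Z) ≤ Z ^ 121 := by
      calc 2 ^ tde (2 * N.size + 2) * (Z ^ 60 * Z) ≤ Z ^ 60 * (Z ^ 60 * Z) :=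
            Nat.mul_le_mul_right _ (hT _ (by omega))
        _ = Z ^ 121 := by ring
    have e2 : 2 ^ tde N.size * Z ≤ Z ^ 121 := by
      calc 2 ^ tde N.size * Z ≤ Z ^ 60 * Z := Nat.mul_le_mul_right _ (hT _ (by omega))
        _ = Z ^ 61 := by ring
        _ ≤ Z ^ 121 := p_pow hZ2 (by norm_num)
    exact (p_add hZ2 e1 e2).trans (p_pow hZ2 (by norm_num))
  have hfin := any_L und hh
  refine (hfin.congr' (fun x => ?_)).mono' ?_
  · -- correctness
    have hE := RLt_equiv N x N.size
    have hsmall : ∀ p : Fin (2 * N.size + 2), a p x = true ↔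
        p ∈ (small (RN N x N.size)) ∧ p.val ≠ 1 := by
      intro p
      simp only [a, decide_eq_true_eq, Bool.and_eq_true]
      unfold small RN
      rw [mem_filter]
      constructor
      · rintro ⟨q, ⟨h1, h2⟩, h3⟩
        exact ⟨⟨mem_univ _, q, h1, h3⟩, h2⟩
      · rintro ⟨⟨-, q, h1, h3⟩, h2⟩
        exact ⟨q, ⟨h1, h2⟩, h3⟩
    have hwa : wt (fun p => a p x) =
        ((small (RN N x N.size)).filter (fun p => p.val ≠ 1)).card := by
      unfold wt
      congr 1
      ext p
      rw [mem_filter, mem_filter, hsmall]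
      simp
    have hwb : wt (fun e => b e x) = (useless N x).card := by
      unfold wt useless
      congr 1
      ext e
      rw [mem_filter, mem_filter]
      simp [b]
    have htot := total N x
    rw [← hc₀] at htot
    have hone : (⟨1, by omega⟩ : Fin (2 * N.size + 2)) ∈ small (RN N x N.size) ↔
        N.Acc x := by
      unfold small RN
      rw [mem_filter]
      have hn1 : node N ⟨1, by omega⟩ = N.snk := by
        unfold node
        rw [if_neg (by simp), if_pos rfl]
      have hn0 : node N ⟨0, by omega⟩ = N.src := by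
        unfold node
        rw [if_pos rfl]
      constructor
      · rintro ⟨-, q, hq, hR⟩
        have : q = ⟨0, by omega⟩ := Fin.ext (by
          have : q.val < 1 := hq
          simp only
          omega)
        rw [this, hn0, hn1, RLt_size] at hR
        exact hR
      · intro hacc
        refine ⟨mem_univ _, ⟨0, by omega⟩, ?_, ?_⟩
        · rw [Fin.lt_def]; simp
        · rw [hn0, hn1, RLt_size]
          exact hacc
    have hcard : (small (RN N x N.size)).card ≤ m := by
      refine (card_le_univ _).trans ?_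
      rw [Fintype.card_fin, hm]
    have hfil : ((small (RN N x N.size)).filter (fun p => p.val ≠ 1)).card =
        (small (RN N x N.size)).card - if N.Acc x then 1 else 0 := by
      have : (small (RN N x N.size)).filter (fun p => p.val ≠ 1) =
          (small (RN N x N.size)).erase ⟨1, by omega⟩ := by
        ext p
        rw [mem_filter, mem_erase]
        constructor
        · rintro ⟨h1, h2⟩
          exact ⟨fun h => h2 (by rw [h]), h1⟩
        · rintro ⟨h1, h2⟩
          exact ⟨h2, fun h => h1 (Fin.ext h)⟩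
      rw [this]
      by_cases hacc : N.Acc x
      · rw [card_erase_of_mem (hone.mpr hacc), if_pos hacc]
      · rw [erase_eq_of_notMem (fun h => hacc (hone.mp h)), if_neg hacc]
        rfl
    have hpos : N.Acc x → 1 ≤ (small (RN N x N.size)).card := fun hacc =>
      Finset.card_pos.mpr ⟨_, hone.mpr hacc⟩
    rw [Bool.eq_iff_iff]
    simp only [h, decide_eq_true_eq, Bool.and_eq_true, thr, hwa, hwb, hfil, Bool.not_eq_true']
    rw [← Bool.not_eq_true, ← hNf]
    constructor
    · rintro ⟨j, h1, h2⟩ hacc
      rw [if_pos hacc] at h1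
      have := hpos hacc
      omega
    · intro hacc
      rw [if_neg hacc]
      exact ⟨⟨(small (RN N x N.size)).card, by omega⟩, by simp, by simp only; omega⟩
  · calc 2 ^ tde (m + 1) * Z ^ 123 ≤ Z ^ 60 * Z ^ 123 := Nat.mul_le_mul_right _ (hT _ hmZ)
      _ = Z ^ 183 := by ring
      _ ≤ (s + 2) ^ 183 := Nat.pow_le_pow_left (by omega) _

end Pool.Agent.W953.NB
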