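import Mathlib
import Pool.Agent.W953.NB.UndCompl

/-!
# Decision trees whose tests are monotone devices
-/

set_option autoImplicit false

namespace Pool.Agent.W953.NB

open Pool.Agent.H540R2 Pool.Agent.H540R2.Circuit Pool.Agent.W953.NW Pool.Agent.W953.SP

universe u

/-- decision trees with tests from `T`; the leaves are also labelled by tests -/
inductive DTree (T : Type u) : Type u
  | out (P : T) : DTree T
  | ask (P : T) (yes no : DTree T) : DTree T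

namespace DTree

variable {T : Type u} {I : Type}

/-- the maximal number of inner nodes (tests) on a path -/
def depth : DTree T → ℕ
  | out _ => 0
  | ask _ yes no => max yes.depth no.depth + 1

/-- the number of nodes plus the total size of the tests -/
def size (𝒯 : Tests T I) : DTree T → ℕ
  | out P => 𝒯.size P + 1
  | ask P yes no => 𝒯.size P + yes.size 𝒯 + no.size 𝒯 + 1

/-- acceptance -/
def Acc (𝒯 : Tests T I) : DTree T → (I → Bool) → Prop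
  | out P, x => 𝒯.acc P x
  | ask P yes no, x => (𝒯.acc P x ∧ yes.Acc 𝒯 x) ∨ (¬ 𝒯.acc P x ∧ no.Acc 𝒯 x)

end DTree

variable {n : ℕ} {T : Type u} {𝓜 : Model} {𝒯 : Tests T (Fin n)}

lemma tree_of_TA (h𝓜 : ∀ (f : BF n) (s : ℕ), 𝓜.K f s →
      ∃ P : T, 𝒯.size P ≤ s ∧ ∀ x, 𝒯.acc P x ↔ f x = true) {t : ℕ} {f : BF n}
    {s : ℕ} (h : 𝓜.TA t f s) : ∃ p : DTree T, p.depth ≤ t ∧ p.size 𝒯 ≤ s ∧
      ∀ x, p.Acc 𝒯 x ↔ f x = true := by
  induction h with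
  | out t hf hs =>
    obtain ⟨P, h1, h2⟩ := h𝓜 _ _ hf
    refine ⟨.out P, Nat.zero_le _, ?_, h2⟩
    show 𝒯.size P + 1 ≤ _
    omega
  | @ask t q a b f s₀ s₁ s₂ s hq ha hb hs hf iha ihb =>
    obtain ⟨P, h1, h2⟩ := h𝓜 _ _ hq
    obtain ⟨p, a1, a2, a3⟩ := iha
    obtain ⟨p', b1, b2, b3⟩ := ihb
    refine ⟨.ask P p p', ?_, ?_, fun x => ?_⟩
    · show max p.depth p'.depth + 1 ≤ t + 1
      omega
    · show 𝒯.size P + p.size 𝒯 + p'.size 𝒯 + 1 ≤ s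
      omega
    · show ((𝒯.acc P x ∧ p.Acc 𝒯 x) ∨ (¬ 𝒯.acc P x ∧ p'.Acc 𝒯 x)) ↔ f x = true
      rw [hf, h2, a3, b3]
      cases hqx : q x <;> simp

open Classical in
lemma TA_of_tree (h𝓜 : ∀ P : T, 𝓜.K (fun x : Fin n → Bool => decide (𝒯.acc P x)) (𝒯.size P)) :
    ∀ (p : DTree T) (t s : ℕ), p.depth ≤ t → p.size 𝒯 ≤ s →
      𝓜.TA t (fun x : Fin n → Bool => decide (p.Acc 𝒯 x)) s
  | .out P, t, s, _, hs => Model.TA.out t (h𝓜 P) hs
  | .ask P yes no, t, s, ht, hs => by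
    have ht' : max yes.depth no.depth + 1 ≤ t := ht
    have hs' : 𝒯.size P + yes.size 𝒯 + no.size 𝒯 + 1 ≤ s := hs
    obtain ⟨t', rfl⟩ : ∃ t', t = t' + 1 := ⟨t - 1, by omega⟩
    refine Model.TA.ask (h𝓜 P) (TA_of_tree h𝓜 yes t' _ (by omega) le_rfl)
      (TA_of_tree h𝓜 no t' _ (by omega) le_rfl) hs' (fun x => ?_)
    have e : (DTree.ask P yes no).Acc 𝒯 x ↔
      ((𝒯.acc P x ∧ yes.Acc 𝒯 x) ∨ (¬ 𝒯.acc P x ∧ no.Acc 𝒯 x)) := Iff.rfl
    by_cases hP : 𝒯.acc P x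
    · have : (DTree.ask P yes no).Acc 𝒯 x ↔ yes.Acc 𝒯 x := by rw [e]; tauto
      simp [this, hP]
    · have : (DTree.ask P yes no).Acc 𝒯 x ↔ no.Acc 𝒯 x := by rw [e]; tauto
      simp [this, hP]

/-- the model of Boolean circuits -/
def circB : Big where
  G f s := ∃ C : Circuit _, C.size ≤ s ∧ ∀ x, C.eval x = f x
  M f s := ∃ C : Circuit _, C.Monotone ∧ C.size ≤ s ∧ ∀ x, C.eval x = f x
  toG := fun ⟨C, _, h2, h3⟩ => ⟨C, h2, h3⟩
  incr := fun ⟨C, h1, _, h3⟩ x y hxy => by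
    rw [← h3, ← h3]
    exact NW.eval_le h1 hxy
  dual := fun {n f s} ⟨C, h1, h2⟩ => by
    refine ⟨(dual C).eval, ⟨dual C, dual_mono C, ?_, fun _ => rfl⟩, fun x => ?_⟩
    · show 2 * C.size ≤ 2 * s
      omega
    · rw [dual_eval]
      exact h2 x

end Pool.Agent.W953.NB
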