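import Mathlib
import Pool.Agent.W953.NB.DTree

/-!
# The model of directed networks
-/

set_option autoImplicit false

namespace Pool.Agent.W953.SP.Net

open Relation

variable {I J : Type}

/-- the network, with the edges directed from `fst` to `snd`, accepts `x` if there is a directed
path of edges that are on -/
def DAcc (N : Net I) (x : I → Bool) : Prop := ReflTransGen (N.On x) N.src N.snk

lemma DAcc.mono {N : Net I} {x y : I → Bool} (hxy : ∀ i, x i = true → y i = true)
    (h : N.DAcc x) : N.DAcc y := by
  unfold DAcc at h ⊢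
  have hon : ∀ a b, N.On x a b → N.On y a b := by
    rintro a b (h | ⟨e, h1, h2, h3⟩)
    · exact Or.inl h
    · exact Or.inr ⟨e, hxy _ h1, h2, h3⟩
  exact ReflTransGen.mono hon _ _ h

open Classical in
theorem subst_dacc (N : Net I) (M : I → Net J) (y : J → Bool) :
    (N.subst M).DAcc y ↔ N.DAcc (fun i => decide ((M i).DAcc y)) := by
  constructor
  · intro h
    set x : I → Bool := fun i => decide ((M i).DAcc y) with hx
    have key : ∀ a, ReflTransGen ((N.subst M).On y) (Sum.inl N.src) a →
        (∀ u, a = Sum.inl u → ReflTransGen (N.On x) N.src u) ∧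
        (∀ e v, a = Sum.inr ⟨e, v⟩ → ReflTransGen (N.On x) N.src (N.fst e) ∧
          ReflTransGen ((M (N.lab e)).On y) (M (N.lab e)).src v) := by
      intro a ha
      induction ha with
      | refl =>
        refine ⟨fun u hu => ?_, fun e v hv => absurd hv (by simp)⟩
        rw [Sum.inl.inj hu]
      | @tail b c _ hbc ih =>
        rcases (subst_on _ _ _ _ _).mp hbc with hbc | ⟨e, r, h1, rfl, rfl⟩
        · cases hbc with
          | free u v h =>
            refine ⟨fun u' hu => ?_, fun e v hv => absurd hv (by simp)⟩
            rw [← Sum.inl.inj hu]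
            exact (ih.1 u rfl).tail (Or.inl h)
          | fst e =>
            refine ⟨fun u' hu => absurd hu (by simp), fun e' v hv => ?_⟩
            have h2 := Sum.inr.inj hv
            obtain ⟨rfl, h3⟩ := Sigma.mk.inj h2
            rw [← eq_of_heq h3]
            exact ⟨ih.1 _ rfl, ReflTransGen.refl⟩
          | snd e =>
            refine ⟨fun u' hu => ?_, fun e v hv => absurd hv (by simp)⟩
            rw [← Sum.inl.inj hu]
            obtain ⟨h2, h3⟩ := ih.2 e _ rfl
            refine h2.tail (Or.inr ⟨e, ?_, rfl, rfl⟩)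
            rw [hx, decide_eq_true_eq]
            exact h3
          | inner e u v h =>
            refine ⟨fun u' hu => absurd hu (by simp), fun e' v' hv => ?_⟩
            have h2 := Sum.inr.inj hv
            obtain ⟨rfl, h3⟩ := Sigma.mk.inj h2
            rw [← eq_of_heq h3]
            obtain ⟨h4, h5⟩ := ih.2 e _ rfl
            exact ⟨h4, h5.tail (Or.inl h)⟩
        · refine ⟨fun u' hu => absurd hu (by simp), fun e' v' hv => ?_⟩
          have h2 := Sum.inr.inj hv
          obtain ⟨rfl, h3⟩ := Sigma.mk.inj h2
          rw [← eq_of_heq h3]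
          obtain ⟨h4, h5⟩ := ih.2 e _ rfl
          exact ⟨h4, h5.tail (Or.inr ⟨r, h1, rfl, rfl⟩)⟩
    exact (key _ h).1 _ rfl
  · intro h
    have hin : ∀ (e : Fin N.size) (u v : (M (N.lab e)).V),
        ReflTransGen ((M (N.lab e)).On y) u v →
        ReflTransGen ((N.subst M).On y) (Sum.inr ⟨e, u⟩) (Sum.inr ⟨e, v⟩) := by
      intro e u v huv
      induction huv with
      | refl => exact ReflTransGen.refl
      | @tail b c _ hbc ih =>
        refine ih.tail ((subst_on _ _ _ _ _).mpr ?_)
        rcases hbc with h | ⟨r, h1, rfl, rfl⟩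
        · exact Or.inl (SubFree.inner e _ _ h)
        · exact Or.inr ⟨e, r, h1, rfl, rfl⟩
    have hout : ∀ u v : N.V, ReflTransGen (N.On (fun i => decide ((M i).DAcc y))) u v →
        ReflTransGen ((N.subst M).On y) (Sum.inl u) (Sum.inl v) := by
      intro u v huv
      induction huv with
      | refl => exact ReflTransGen.refl
      | @tail b c _ hbc ih =>
        rcases hbc with h | ⟨e, h1, rfl, rfl⟩
        · exact ih.tail ((subst_on _ _ _ _ _).mpr (Or.inl (SubFree.free _ _ h)))
        · rw [decide_eq_true_eq] at h1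
          refine (ih.tail ((subst_on _ _ _ _ _).mpr (Or.inl (SubFree.fst e)))).trans ?_
          exact (hin e _ _ h1).tail ((subst_on _ _ _ _ _).mpr (Or.inl (SubFree.snd e)))
    exact hout _ _ h

end Pool.Agent.W953.SP.Net

namespace Pool.Agent.W953.SP

/-- the tests: monotone directed switching networks -/
def dnetTests (I : Type) : Tests (Net I) I where
  acc := Net.DAcc
  size := Net.size

end Pool.Agent.W953.SP

namespace Pool.Agent.W953.NB

open Relation Pool.Agent.H540R2 Pool.Agent.W953.NW Pool.Agent.W953.SP

lemma Net.not_dacc {I : Type} {N : Net I} {x : I → Bool} (φ : N.V → Prop)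
    (h : ∀ a b, N.On x a b → φ a → φ b) (h1 : φ N.src) (h2 : ¬ φ N.snk) : ¬ N.DAcc x := by
  intro hacc
  have key : ∀ a, ReflTransGen (N.On x) N.src a → φ a := by
    intro a ha
    induction ha with
    | refl => exact h1
    | tail _ hab ih => exact h _ _ hab ih
  exact h2 (key _ hacc)

lemma varNet_dacc {n : ℕ} (i : Fin n) (x : Fin n → Bool) : (varNet i).DAcc x ↔ x i = true := by
  constructor
  · intro h
    by_contra hx
    refine Net.not_dacc (N := varNet i) (x := x) (fun a => a = false) ?_ rfl (by simp [varNet]) h
    rintro a b (h | ⟨e, h1, -, -⟩)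
    · exact h.elim
    · exact absurd h1 hx
  · intro h
    exact ReflTransGen.single (Or.inr ⟨(0 : Fin 1), h, rfl, rfl⟩)

lemma constNet_dacc {n : ℕ} (b : Bool) (x : Fin n → Bool) :
    (constNet (n := n) b).DAcc x ↔ b = true := by
  constructor
  · intro h
    by_contra hb
    refine Net.not_dacc (N := constNet (n := n) b) (x := x) (fun a => a = false) ?_ rfl
      (by simp [constNet]) h
    rintro a b' (h | ⟨e, -⟩)
    · exact absurd h hb
    · exact e.elim0
  · intro h
    exact ReflTransGen.single (Or.inl h)

lemma orNet_dacc (x : Fin 2 → Bool) : orNet.DAcc x ↔ x 0 = true ∨ x 1 = true := by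
  constructor
  · intro h
    by_contra hx
    push Not at hx
    refine Net.not_dacc (N := orNet) (x := x) (fun a => a = false) ?_ rfl (by simp [orNet]) h
    rintro a b (h | ⟨e, h1, -, -⟩)
    · exact h.elim
    · have h1' : x e = true := h1
      fin_cases e
      · exact absurd h1' hx.1
      · exact absurd h1' hx.2
  · rintro (h | h)
    · exact ReflTransGen.single (Or.inr ⟨(0 : Fin 2), h, rfl, rfl⟩)
    · exact ReflTransGen.single (Or.inr ⟨(1 : Fin 2), h, rfl, rfl⟩)

lemma andNet_dacc (x : Fin 2 → Bool) : andNet.DAcc x ↔ x 0 = true ∧ x 1 = true := by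
  constructor
  · intro h
    constructor
    · by_contra hx
      refine Net.not_dacc (N := andNet) (x := x) (fun a => a = (0 : Fin 3)) ?_ rfl
        (by simp [andNet]) h
      rintro a b (h | ⟨e, h1, rfl, rfl⟩)
      · exact h.elim
      · have h1' : x e = true := h1
        fin_cases e
        · exact absurd h1' hx
        · simp [andNet]
    · by_contra hx
      refine Net.not_dacc (N := andNet) (x := x) (fun a => a ≠ (2 : Fin 3)) ?_
        (by simp [andNet]) (by simp [andNet]) h
      rintro a b (h | ⟨e, h1, rfl, rfl⟩)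
      · exact h.elim
      · have h1' : x e = true := h1
        fin_cases e
        · simp [andNet]
        · exact absurd h1' hx
  · rintro ⟨h1, h2⟩
    exact (ReflTransGen.single (b := (1 : Fin 3)) (Or.inr ⟨(0 : Fin 2), h1, rfl, rfl⟩)).tail
      (Or.inr ⟨(1 : Fin 2), h2, rfl, rfl⟩)

/-- complexity: the number of labelled edges of a monotone directed network -/
def dirK {n : ℕ} (f : BF n) (s : ℕ) : Prop :=
  ∃ N : Net (Fin n), N.size ≤ s ∧ ∀ x, N.DAcc x ↔ f x = true

lemma dirK_two {n : ℕ} (A : Net (Fin 2)) (F : BF 2)
    (hA : ∀ x, A.DAcc x ↔ F x = true) (hlab : ∀ M : Fin 2 → Net (Fin n),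
      ∑ e : Fin A.size, (M (A.lab e)).size = (M 0).size + (M 1).size)
    {f g : BF n} {s t : ℕ} (hf : dirK f s) (hg : dirK g t) :
    dirK (fun x => F (fun i => if i = 0 then f x else g x)) (s + t) := by
  obtain ⟨M, h1, h2⟩ := hf
  obtain ⟨N, h3, h4⟩ := hg
  refine ⟨A.subst (fun i => if i = 0 then M else N), ?_, fun x => ?_⟩
  · have := hlab (fun i => if i = 0 then M else N)
    show ∑ e : Fin A.size, _ ≤ _
    rw [this]
    simp only [if_true, one_ne_zero, if_false]
    omega
  · rw [SP.Net.subst_dacc, hA]
    have : (fun i : Fin 2 => @decide ((if i = 0 then M else N).DAcc x) (Classical.propDecidable _)) =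
        fun i => if i = 0 then f x else g x := by
      funext i
      apply dec_eq
      by_cases hi : i = 0
      · rw [if_pos hi, if_pos hi]
        exact h2 x
      · rw [if_neg hi, if_neg hi]
        exact h4 x
    rw [this]

/-- the model of directed networks -/
def dir : Model where
  K := dirK
  mono := fun ⟨N, h1, h2⟩ h => ⟨N, h1.trans h, h2⟩
  var := fun i => ⟨varNet i, le_rfl, varNet_dacc i⟩
  const := fun b => ⟨constNet b, Nat.zero_le _, constNet_dacc b⟩
  and := fun {n f g s t} hf hg => by
    have := dirK_two (n := n) andNet (fun z => z 0 && z 1) (fun x => by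
      rw [andNet_dacc, Bool.and_eq_true]) (fun M => by
      show ∑ e : Fin 2, (M e).size = _
      rw [Fin.sum_univ_two]) hf hg
    simpa using this
  or := fun {n f g s t} hf hg => by
    have := dirK_two (n := n) orNet (fun z => z 0 || z 1) (fun x => by
      rw [orNet_dacc, Bool.or_eq_true]) (fun M => by
      show ∑ e : Fin 2, (M e).size = _
      rw [Fin.sum_univ_two]) hf hg
    simpa using this
  comp := fun {m n F s} ⟨N, h1, h2⟩ {g t} hg => by
    choose M hM1 hM2 using hg
    refine ⟨N.subst M, ?_, fun x => ?_⟩
    · show ∑ e : Fin N.size, (M (N.lab e)).size ≤ s * t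
      calc ∑ e : Fin N.size, (M (N.lab e)).size ≤ ∑ e : Fin N.size, t :=
            Finset.sum_le_sum (fun e _ => hM1 _)
        _ = N.size * t := by simp
        _ ≤ s * t := Nat.mul_le_mul_right _ h1
    · rw [SP.Net.subst_dacc, h2]
      have : (fun i => @decide ((M i).DAcc x) (Classical.propDecidable _)) = fun i => g i x := by
        funext i
        exact dec_eq (hM2 i x)
      rw [this]

end Pool.Agent.W953.NB
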