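import Mathlib
import Pool.Agent.W953.NB.Dir

/-!
# Directed networks are closed under complement (Immerman, Szelepcsényi)
-/

set_option autoImplicit false

namespace Pool.Agent.W953.NB

open Relation Finset Pool.Agent.H540R2 Pool.Agent.W953.NW Pool.Agent.W953.SP

/-! ### paths in layered graphs -/

/-- paths of length `d` from `a`, with `g i` the edges from layer `i` to layer `i + 1` -/
def Path {m : ℕ} (g : ℕ → Fin m → Fin m → Prop) (a : Fin m) : ℕ → Fin m → Prop
  | 0, b => a = b
  | d + 1, b => ∃ c, Path g a d c ∧ g d c b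

/-- the numbering of the edges of the layered graph -/
def lay (d m : ℕ) : Fin (d * m * m) ≃ (Fin d × Fin m) × Fin m :=
  finProdFinEquiv.symm.trans (Equiv.prodCongr finProdFinEquiv.symm (Equiv.refl _))

/-- the layered graph -/
def layNet (d m : ℕ) (a b : Fin m) : Net (ℕ × Fin m × Fin m) where
  V := ℕ × Fin m
  src := (0, a)
  snk := (d, b)
  free := fun _ _ => False
  size := d * m * m
  lab := fun r => ((lay d m r).1.1.val, (lay d m r).1.2, (lay d m r).2)
  fst := fun r => ((lay d m r).1.1.val, (lay d m r).1.2)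
  snd := fun r => ((lay d m r).1.1.val + 1, (lay d m r).2)

lemma layNet_acc {d m : ℕ} (a b : Fin m) (x : ℕ × Fin m × Fin m → Bool) :
    (layNet d m a b).DAcc x ↔ Path (fun i p q => x (i, p, q) = true) a d b := by
  constructor
  · intro h
    have key : ∀ u : ℕ × Fin m, ReflTransGen ((layNet d m a b).On x) (0, a) u →
        Path (fun i p q => x (i, p, q) = true) a u.1 u.2 := by
      intro u hu
      induction hu with
      | refl => exact rfl
      | @tail v w _ hvw ih =>
        rcases hvw with h | ⟨r, h1, rfl, rfl⟩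
        · exact h.elim
        · exact ⟨_, ih, h1⟩
    exact key _ h
  · intro h
    have key : ∀ i ≤ d, ∀ q : Fin m, Path (fun i p q => x (i, p, q) = true) a i q →
        ReflTransGen ((layNet d m a b).On x) (0, a) (i, q) := by
      intro i
      induction i with
      | zero =>
        intro _ q hq
        have : a = q := hq
        subst this
        exact ReflTransGen.refl
      | succ i ih =>
        rintro hi q ⟨c, hc, hg⟩
        refine (ih (by omega) c hc).tail (Or.inr ?_)
        obtain ⟨r, hr⟩ := (lay d m).surjective ((⟨i, by omega⟩, c), q)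
        refine ⟨r, ?_, ?_, ?_⟩
        · show x ((lay d m r).1.1.val, (lay d m r).1.2, (lay d m r).2) = true
          rw [hr]
          exact hg
        · show ((lay d m r).1.1.val, (lay d m r).1.2) = (i, c)
          rw [hr]
        · show ((lay d m r).1.1.val + 1, (lay d m r).2) = (i + 1, q)
          rw [hr]
    exact key d le_rfl b h

open Classical in
lemma path_K {n m s : ℕ} {g : ℕ → Fin m → Fin m → BF n} (hg : ∀ i p q, dir.K (g i p q) s)
    (d : ℕ) (a b : Fin m) :
    dir.K (fun x => decide (Path (fun i p q => g i p q x = true) a d b)) (d * m * m * s) := by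
  choose M hM1 hM2 using hg
  refine ⟨(layNet d m a b).subst (fun i => M i.1 i.2.1 i.2.2), ?_, fun x => ?_⟩
  · show ∑ e : Fin (d * m * m), _ ≤ d * m * m * s
    refine (Finset.sum_le_sum (fun e _ => hM1 _ _ _)).trans ?_
    simp
  · rw [SP.Net.subst_dacc, layNet_acc, decide_eq_true_iff]
    have : (fun (i : ℕ) (p q : Fin m) => (@decide ((M (i, p, q).1 (i, p, q).2.1 (i, p, q).2.2).DAcc x)
        (Classical.propDecidable _) = true)) = fun i p q => g i p q x = true := by
      funext i p q
      rw [@decide_eq_true_iff _ (Classical.propDecidable _), hM2]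
    rw [this]

open Classical in
lemma path_L {n m s : ℕ} {g : ℕ → Fin m → Fin m → BF n} (hg : ∀ i p q, dir.L (g i p q) s)
    (d : ℕ) (a b : Fin m) :
    dir.L (fun x => decide (Path (fun i p q => g i p q x = true) a d b)) (d * m * m * s) := by
  choose Q hQ1 hQ2 using hg
  refine ⟨_, path_K hQ1 d a b, fun x => ?_⟩
  have : (fun (i : ℕ) (p q : Fin m) => Q i p q (lits x) = true) =
      fun i p q => g i p q x = true := by
    funext i p q
    rw [hQ2]
  simp only [this]

/-! ### reachability in few steps -/

section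

variable {n : ℕ} (N : Net (Fin n)) (x : Fin n → Bool)

/-- reachability by free edges -/
def Fr : N.V → N.V → Prop := ReflTransGen N.free

/-- at most one labelled edge -/
def Stp1 (u v : N.V) : Prop :=
  Fr N u v ∨ ∃ e : Fin N.size, x (N.lab e) = true ∧ Fr N u (N.fst e) ∧ Fr N (N.snd e) v

/-- steps between numbers -/
def SN (p q : Fin (2 * N.size + 2)) : Prop := Stp1 N x (node N p) (node N q)

/-- number of the start -/
def zeroN : Fin (2 * N.size + 2) := ⟨0, by omega⟩

/-- number of the end -/
def oneN : Fin (2 * N.size + 2) := ⟨1, by omega⟩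

lemma node_zero : node N (zeroN N) = N.src := by
  unfold node zeroN
  rw [if_pos rfl]

lemma node_one : node N (oneN N) = N.snk := by
  unfold node oneN
  rw [if_neg (by simp), if_pos rfl]

/-- reachable in at most `d` steps -/
def Rd (d : ℕ) (q : Fin (2 * N.size + 2)) : Prop := Path (fun _ => SN N x) (zeroN N) d q

lemma SN_refl (p : Fin (2 * N.size + 2)) : SN N x p p := Or.inl ReflTransGen.refl

lemma Rd_succ {d : ℕ} {q : Fin (2 * N.size + 2)} (h : Rd N x d q) : Rd N x (d + 1) q :=
  ⟨q, h, SN_refl N x q⟩

lemma Rd_mono {d e : ℕ} (hde : d ≤ e) {q : Fin (2 * N.size + 2)} (h : Rd N x d q) :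
    Rd N x e q := by
  induction hde with
  | refl => exact h
  | step _ ih => exact Rd_succ N x ih

lemma fr_on {u v : N.V} (h : Fr N u v) : ReflTransGen (N.On x) u v :=
  ReflTransGen.mono (fun _ _ h => Or.inl h) _ _ h

lemma stp_on {u v : N.V} (h : Stp1 N x u v) : ReflTransGen (N.On x) u v := by
  rcases h with h | ⟨e, h1, h2, h3⟩
  · exact fr_on N x h
  · exact ((fr_on N x h2).tail (Or.inr ⟨e, h1, rfl, rfl⟩)).trans (fr_on N x h3)

lemma Rd_sound (d : ℕ) (q : Fin (2 * N.size + 2)) (h : Rd N x d q) :
    ReflTransGen (N.On x) N.src (node N q) := by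
  induction d generalizing q with
  | zero =>
    have : zeroN N = q := h
    rw [← this, node_zero]
  | succ d ih =>
    obtain ⟨c, hc, hg⟩ := h
    exact (ih c hc).trans (stp_on N x hg)

/-- completeness -/
lemma Rd_complete (v : N.V) (h : ReflTransGen (N.On x) N.src v) :
    ∃ d p, Rd N x d p ∧ Fr N (node N p) v := by
  induction h with
  | refl => exact ⟨0, zeroN N, rfl, by rw [node_zero]; exact ReflTransGen.refl⟩
  | @tail u v _ huv ih =>
    obtain ⟨d, p, h1, h2⟩ := ih
    rcases huv with h | ⟨e, h3, rfl, rfl⟩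
    · exact ⟨d, p, h1, h2.tail h⟩
    · refine ⟨d + 1, sndN N e, ⟨p, h1, Or.inr ⟨e, h3, h2, ?_⟩⟩, ?_⟩
      · rw [node_snd]; exact ReflTransGen.refl
      · rw [node_snd]; exact ReflTransGen.refl

open Classical in
/-- the set of numbers reachable in at most `d` steps -/
noncomputable def RS (d : ℕ) : Finset (Fin (2 * N.size + 2)) := univ.filter (fun q => Rd N x d q)

lemma mem_RS (d : ℕ) (q : Fin (2 * N.size + 2)) : q ∈ RS N x d ↔ Rd N x d q := by
  unfold RS
  simp

lemma RS_stable {d : ℕ} (h : RS N x d = RS N x (d + 1)) : ∀ e, d ≤ e → RS N x e = RS N x d := by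
  intro e he
  induction he with
  | refl => rfl
  | @step e _ ih =>
    ext q
    rw [mem_RS]
    constructor
    · rintro ⟨c, hc, hg⟩
      rw [h, mem_RS]
      refine ⟨c, ?_, hg⟩
      have : c ∈ RS N x e := (mem_RS N x e c).mpr hc
      rw [ih] at this
      exact (mem_RS N x d c).mp this
    · intro hq
      rw [← ih, mem_RS] at hq
      exact Rd_succ N x hq

lemma RS_final (e : ℕ) : RS N x e ⊆ RS N x (2 * N.size + 2) := by
  classical
  by_cases h : ∃ d < 2 * N.size + 2, RS N x d = RS N x (d + 1)
  · obtain ⟨d, hd, hst⟩ := h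
    have h1 := RS_stable N x hst
    rcases le_total d e with h2 | h2
    · rw [h1 e h2, h1 (2 * N.size + 2) hd.le]
    · intro q hq
      rw [mem_RS] at hq ⊢
      exact Rd_mono N x (h2.trans hd.le) hq
  · push Not at h
    have hcard : ∀ d ≤ 2 * N.size + 2, d + 1 ≤ (RS N x d).card := by
      intro d
      induction d with
      | zero =>
        intro _
        exact Finset.card_pos.mpr ⟨zeroN N, (mem_RS N x 0 _).mpr rfl⟩
      | succ d ih =>
        intro hd
        have h1 := ih (by omega)
        have h2 : RS N x d ⊂ RS N x (d + 1) := by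
          refine Finset.ssubset_iff_subset_ne.mpr ⟨?_, h d (by omega)⟩
          intro q hq
          rw [mem_RS] at hq ⊢
          exact Rd_succ N x hq
        have := Finset.card_lt_card h2
        omega
    have h3 := hcard _ le_rfl
    have h4 := Finset.card_le_univ (RS N x (2 * N.size + 2))
    rw [Fintype.card_fin] at h4
    omega

theorem acc_iff_RS : N.DAcc x ↔ oneN N ∈ RS N x (2 * N.size + 2) := by
  constructor
  · intro h
    obtain ⟨d, p, h1, h2⟩ := Rd_complete N x N.snk h
    apply RS_final N x (d + 1)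
    rw [mem_RS]
    refine ⟨p, h1, Or.inl ?_⟩
    rw [node_one]
    exact h2
  · intro h
    rw [mem_RS] at h
    have := Rd_sound N x _ _ h
    rw [node_one] at this
    exact this

end

/-- conjunctions -/
lemma all_L {n m s : ℕ} (𝓜 : Model) {g : Fin m → BF n} (hg : ∀ i, 𝓜.L (g i) s) :
    𝓜.L (fun x => decide (∀ i, g i x = true)) (2 ^ tde m * s) := by
  refine (Model.L.comp' (Model.thr (𝓜 := 𝓜) (n := m) m) hg).congr' (fun x => ?_)
  unfold thr wt
  rw [decide_eq_decide]
  constructor
  · intro h i
    have h0 : m ≤ (univ.filter (fun i => g i x = true)).card := h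
    have h1 : univ.filter (fun i => g i x = true) = univ := by
      apply Finset.eq_univ_of_card
      rw [Fintype.card_fin]
      have := Finset.card_filter_le (univ : Finset (Fin m)) (fun i => g i x = true)
      rw [Finset.card_univ, Fintype.card_fin] at this
      omega
    have h2 : i ∈ univ.filter (fun i => g i x = true) := by rw [h1]; exact mem_univ i
    exact (mem_filter.mp h2).2
  · intro h
    rw [Finset.filter_true_of_mem (fun i _ => h i), Finset.card_univ, Fintype.card_fin]

lemma wt_eq_card {m : ℕ} (g : Fin m → Bool) (S : Finset (Fin m))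
    (h : ∀ i, g i = true ↔ i ∈ S) : wt g = S.card := by
  unfold wt
  congr 1
  ext i
  rw [mem_filter, h]
  simp

/-- **Complement.** -/
theorem dir_compl : dir.Compl 300 := by
  classical
  rintro n f s ⟨N, hN, hNf⟩
  obtain ⟨m, hm⟩ : ∃ m, m = 2 * N.size + 2 := ⟨_, rfl⟩
  obtain ⟨Z, hZ⟩ : ∃ Z, Z = N.size + 2 := ⟨_, rfl⟩
  have hZ2 : 2 ≤ Z := by omega
  have hZ1 : 1 ≤ Z := by omega
  have hZZ : 2 ≤ Z ^ 2 := hZ2.trans (Nat.le_self_pow (by norm_num) Z)
  have hmZ : m + 1 ≤ Z ^ 2 := by
    rw [hm, hZ]
    have : (N.size + 2) ^ 2 = N.size * N.size + 4 * N.size + 4 := by ring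
    omega
  have hT : ∀ k ≤ Z ^ 2, 2 ^ tde k ≤ Z ^ 60 := by
    intro k hk
    refine (p_tde hZZ hk).trans (le_of_eq ?_)
    rw [← pow_mul]
  have hNZ : N.size ≤ Z ^ 2 := by omega
  -- steps
  have hstep : ∀ p q, dir.K (fun x => decide (SN N x p q)) (Z ^ 63) := by
    intro p q
    have h1 : dir.K (fun x => decide (∃ e : Fin N.size, (x (N.lab e) &&
        decide (Fr N (node N p) (N.fst e) ∧ Fr N (N.snd e) (node N q))) = true))
        (2 ^ tde N.size * 2) :=
      any_K dir (g := fun (e : Fin N.size) x => (x (N.lab e) &&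
        decide (Fr N (node N p) (N.fst e) ∧ Fr N (N.snd e) (node N q))))
        (fun e => dir.mono (dir.and (dir.var _) (dir.const _)) (by norm_num))
    refine dir.congr (dir.mono (dir.or (dir.const (decide (Fr N (node N p) (node N q)))) h1) ?_)
      (fun x => ?_)
    · have e1 : 2 ^ tde N.size * 2 ≤ Z ^ 62 := by
        calc 2 ^ tde N.size * 2 ≤ Z ^ 60 * Z ^ 1 :=
              Nat.mul_le_mul (hT _ hNZ) (by simpa using hZ2)
          _ = Z ^ 61 := by ring
          _ ≤ Z ^ 62 := p_pow hZ2 (by norm_num)
      exact p_add hZ2 (Nat.one_le_pow _ _ (by omega)) e1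
    · rw [Bool.eq_iff_iff]
      simp only [Bool.or_eq_true, decide_eq_true_eq, Bool.and_eq_true]
      unfold SN Stp1
      exact Iff.rfl
  have hnstep : ∀ p q, dir.L (fun x => !(decide (SN N x p q))) (Z ^ 63) := by
    intro p q
    have h1 : dir.L (fun x => decide (∀ e : Fin N.size, (!(x (N.lab e)) ||
        decide (¬ (Fr N (node N p) (N.fst e) ∧ Fr N (N.snd e) (node N q)))) = true))
        (2 ^ tde N.size * 2) :=
      all_L dir (g := fun (e : Fin N.size) x => (!(x (N.lab e)) ||
        decide (¬ (Fr N (node N p) (N.fst e) ∧ Fr N (N.snd e) (node N q)))))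
        (fun e => ((Model.L.not_var (𝓜 := dir) _).or'
          (Model.L.of_K (dir.const _))).mono' (by norm_num))
    refine (((Model.L.of_K (dir.const (decide (¬ Fr N (node N p) (node N q))))).and' h1).congr'
      (fun x => ?_)).mono' ?_
    · rw [Bool.eq_iff_iff]
      simp only [Bool.or_eq_true, decide_eq_true_eq, Bool.and_eq_true, Bool.not_eq_true',
        decide_eq_false_iff_not]
      unfold SN Stp1
      constructor
      · rintro ⟨h2, h3⟩ (h4 | ⟨e, h4, h5⟩)
        · exact h2 h4
        · rcases h3 e with h6 | h6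
          · rw [h4] at h6
            exact absurd h6 (by simp)
          · exact h6 h5
      · intro h2
        refine ⟨fun h3 => h2 (Or.inl h3), fun e => ?_⟩
        by_cases h3 : x (N.lab e) = true
        · right
          intro h4
          exact h2 (Or.inr ⟨e, h3, h4⟩)
        · left
          simpa using h3
    · have e1 : 2 ^ tde N.size * 2 ≤ Z ^ 62 := by
        calc 2 ^ tde N.size * 2 ≤ Z ^ 60 * Z ^ 1 :=
              Nat.mul_le_mul (hT _ hNZ) (by simpa using hZ2)
          _ = Z ^ 61 := by ring
          _ ≤ Z ^ 62 := p_pow hZ2 (by norm_num)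
      exact p_add hZ2 (Nat.one_le_pow _ _ (by omega)) e1
  -- reachability
  have hR : ∀ d ≤ m + 1, ∀ q, dir.K (fun x => decide (Rd N x d q)) (Z ^ 69) := by
    intro d hd q
    have h1 := path_K (g := fun _ p q x => decide (SN N x p q)) (fun _ p q => hstep p q) d
      (zeroN N) q
    refine dir.congr (dir.mono h1 ?_) (fun x => ?_)
    · calc d * (2 * N.size + 2) * (2 * N.size + 2) * Z ^ 63 ≤ Z ^ 2 * Z ^ 2 * Z ^ 2 * Z ^ 63 :=
            Nat.mul_le_mul_right _ (Nat.mul_le_mul (Nat.mul_le_mul (hd.trans hmZ) (by omega))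
              (by omega))
        _ = Z ^ 69 := by ring
    · rw [decide_eq_decide]
      unfold Rd
      have : (fun (_ : ℕ) (p q : Fin (2 * N.size + 2)) => decide (SN N x p q) = true) =
          fun _ => SN N x := by
        funext _ p q
        exact decide_eq_true_eq
      rw [this]
  -- not reachable in `d + 1` steps, if `c` numbers are reachable in `d` steps
  let nr : ℕ → ℕ → Fin (2 * N.size + 2) → BF n := fun d c p x =>
    thr c (fun q => decide (Rd N x d q) && !(decide (SN N x q p)))
  have hnr : ∀ d ≤ m + 1, ∀ c p, dir.L (nr d c p) (Z ^ 130) := by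
    intro d hd c p
    refine (Model.L.comp' (Model.thr (𝓜 := dir) c)
      (g := fun q x => decide (Rd N x d q) && !(decide (SN N x q p)))
      (fun q => ((Model.L.of_K (hR d hd q)).and' (hnstep q p)).mono' (t := Z ^ 70) ?_)).mono' ?_
    · exact p_add hZ2 le_rfl (p_pow hZ2 (by norm_num))
    · calc 2 ^ tde (2 * N.size + 2) * Z ^ 70 ≤ Z ^ 60 * Z ^ 70 :=
            Nat.mul_le_mul_right _ (hT _ (by omega))
        _ = Z ^ 130 := by ring
  -- the count
  let V : ℕ → Fin (m + 1) → Fin (m + 1) → BF n := fun d c c' x =>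
    if d < m then (thr c'.val (fun p => decide (Rd N x (d + 1) p)) &&
      thr (m - c'.val) (fun p => nr d c.val p x)) else false
  have hV : ∀ d c c', dir.L (V d c c') (Z ^ 191) := by
    intro d c c'
    by_cases hd : d < m
    · have h1 : dir.L (fun x => (thr c'.val (fun p => decide (Rd N x (d + 1) p)) &&
          thr (m - c'.val) (fun p => nr d c.val p x))) (Z ^ 191) := by
        refine ((Model.L.of_K (dir.comp (Model.thr (𝓜 := dir) c'.val)
          (fun p => hR (d + 1) (by omega) p))).and'
          (Model.L.comp' (Model.thr (𝓜 := dir) (m - c'.val))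
          (fun p => hnr d (by omega) c.val p))).mono' ?_
        have e1 : 2 ^ tde (2 * N.size + 2) * Z ^ 69 ≤ Z ^ 190 := by
          calc 2 ^ tde (2 * N.size + 2) * Z ^ 69 ≤ Z ^ 60 * Z ^ 69 :=
                Nat.mul_le_mul_right _ (hT _ (by omega))
            _ = Z ^ 129 := by ring
            _ ≤ Z ^ 190 := p_pow hZ2 (by norm_num)
        have e2 : 2 ^ tde (2 * N.size + 2) * Z ^ 130 ≤ Z ^ 190 := by
          calc 2 ^ tde (2 * N.size + 2) * Z ^ 130 ≤ Z ^ 60 * Z ^ 130 :=
                Nat.mul_le_mul_right _ (hT _ (by omega))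
            _ = Z ^ 190 := by ring
        exact p_add hZ2 e1 e2
      refine h1.congr' (fun x => ?_)
      simp only [V, if_pos hd]
    · refine ((Model.L.of_K (dir.const false)).congr' (fun x => ?_)).mono'
        (Nat.one_le_pow _ _ (by omega))
      simp only [V, if_neg hd]
  have hP : ∀ c : Fin (m + 1), dir.L (fun x => decide (Path (fun i p q => V i p q x = true)
      (⟨1, by omega⟩ : Fin (m + 1)) m c)) (Z ^ 197) := by
    intro c
    refine (path_L hV m _ c).mono' ?_
    calc m * (m + 1) * (m + 1) * Z ^ 191 ≤ Z ^ 2 * Z ^ 2 * Z ^ 2 * Z ^ 191 :=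
          Nat.mul_le_mul_right _ (Nat.mul_le_mul (Nat.mul_le_mul (by omega) hmZ) hmZ)
      _ = Z ^ 197 := by ring
  let h : Fin (m + 1) → BF n := fun c x =>
    (decide (Path (fun i p q => V i p q x = true) (⟨1, by omega⟩ : Fin (m + 1)) m c) &&
      thr c.val (fun q => decide (Rd N x m q) && decide (q ≠ oneN N)))
  have hh : ∀ c, dir.L (h c) (Z ^ 198) := by
    intro c
    refine ((hP c).and' (Model.L.of_K (dir.comp (Model.thr (𝓜 := dir) c.val)
      (g := fun q x => decide (Rd N x m q) && decide (q ≠ oneN N))
      (fun q => dir.mono (t := Z ^ 70) (dir.and (hR m (by omega) q) (dir.const _)) ?_)))).mono' ?_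
    · exact p_add hZ2 le_rfl (Nat.one_le_pow _ _ (by omega))
    · refine p_add hZ2 le_rfl ?_
      calc 2 ^ tde (2 * N.size + 2) * Z ^ 70 ≤ Z ^ 60 * Z ^ 70 :=
            Nat.mul_le_mul_right _ (hT _ (by omega))
        _ = Z ^ 130 := by ring
        _ ≤ Z ^ 197 := p_pow hZ2 (by norm_num)
  refine ((any_L dir hh).congr' (fun x => ?_)).mono' ?_
  · -- correctness
    have hwR : ∀ d, wt (fun p => decide (Rd N x d p)) = (RS N x d).card := fun d =>
      wt_eq_card _ _ (fun i => by rw [decide_eq_true_iff, mem_RS])
    have hRSm : ∀ d, (RS N x d).card ≤ m := by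
      intro d
      refine (card_le_univ _).trans ?_
      rw [Fintype.card_fin, hm]
    have hnrx : ∀ d p, nr d (RS N x d).card p x = true ↔ p ∈ (RS N x (d + 1))ᶜ := by
      intro d p
      simp only [nr, thr, decide_eq_true_eq]
      have e1 : wt (fun q => decide (Rd N x d q) && !(decide (SN N x q p))) =
          ((RS N x d).filter (fun q => ¬ SN N x q p)).card :=
        wt_eq_card _ _ (fun i => by
          rw [mem_filter, mem_RS, Bool.and_eq_true, decide_eq_true_iff, Bool.not_eq_true',
            decide_eq_false_iff_not])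
      rw [e1, mem_compl, mem_RS]
      constructor
      · rintro h1 ⟨c, hc, hg⟩
        have h2 : (RS N x d).filter (fun q => ¬ SN N x q p) = RS N x d :=
          Finset.eq_of_subset_of_card_le (filter_subset _ _) h1
        have h3 : c ∈ (RS N x d).filter (fun q => ¬ SN N x q p) := by
          rw [h2, mem_RS]
          exact hc
        exact (mem_filter.mp h3).2 hg
      · intro h1
        rw [Finset.filter_true_of_mem]
        intro q hq hqp
        rw [mem_RS] at hq
        exact h1 ⟨q, hq, hqp⟩
    have hVx : ∀ d < m, ∀ c c' : Fin (m + 1), c.val = (RS N x d).card →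
        (V d c c' x = true ↔ c'.val = (RS N x (d + 1)).card) := by
      intro d hd c c' hc
      have e2 : wt (fun p => nr d c.val p x) = ((RS N x (d + 1))ᶜ).card :=
        wt_eq_card _ _ (fun i => by rw [hc]; exact hnrx d i)
      simp only [V, if_pos hd, Bool.and_eq_true, thr, decide_eq_true_eq]
      rw [e2, hwR, card_compl, Fintype.card_fin]
      have h3 := hRSm (d + 1)
      have h4 : c'.val ≤ m := by have := c'.isLt; omega
      omega
    have hpath : ∀ d ≤ m, ∀ c : Fin (m + 1), Path (fun i p q => V i p q x = true)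
        (⟨1, by omega⟩ : Fin (m + 1)) d c ↔ c.val = (RS N x d).card := by
      intro d
      induction d with
      | zero =>
        intro _ c
        have h0 : RS N x 0 = {zeroN N} := by
          ext q
          rw [mem_RS, mem_singleton]
          exact eq_comm
        rw [h0, card_singleton]
        constructor
        · intro h1
          have : (⟨1, by omega⟩ : Fin (m + 1)) = c := h1
          rw [← this]
        · intro h1
          exact Fin.ext h1.symm
      | succ d ih =>
        intro hd c
        constructor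
        · rintro ⟨c₀, h1, h2⟩
          exact (hVx d (by omega) c₀ c ((ih (by omega) c₀).mp h1)).mp h2
        · intro h1
          have h2 := hRSm d
          refine ⟨⟨(RS N x d).card, by omega⟩, (ih (by omega) _).mpr rfl, ?_⟩
          exact (hVx d (by omega) _ c rfl).mpr h1
    have hlast : ∀ c : Fin (m + 1), h c x = true ↔ c.val = (RS N x m).card ∧
        oneN N ∉ RS N x m := by
      intro c
      simp only [h, Bool.and_eq_true, decide_eq_true_eq, thr]
      have e1 : wt (fun q => decide (Rd N x m q) && decide (q ≠ oneN N)) =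
          ((RS N x m).erase (oneN N)).card :=
        wt_eq_card _ _ (fun i => by
          rw [mem_erase, mem_RS, Bool.and_eq_true, decide_eq_true_iff, decide_eq_true_iff]
          exact and_comm)
      rw [hpath m le_rfl, e1]
      constructor
      · rintro ⟨h1, h2⟩
        refine ⟨h1, fun h3 => ?_⟩
        rw [card_erase_of_mem h3] at h2
        have := Finset.card_pos.mpr ⟨_, h3⟩
        omega
      · rintro ⟨h1, h2⟩
        refine ⟨h1, ?_⟩
        rw [erase_eq_of_notMem h2]
        exact h1.le
    rw [Bool.eq_iff_iff, decide_eq_true_iff, Bool.not_eq_true', ← Bool.not_eq_true, ← hNf,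
      acc_iff_RS]
    have hmm : RS N x (2 * N.size + 2) = RS N x m := by rw [hm]
    rw [hmm]
    constructor
    · rintro ⟨c, hc⟩
      exact ((hlast c).mp hc).2
    · intro h1
      have h2 := hRSm m
      exact ⟨⟨(RS N x m).card, by omega⟩, (hlast _).mpr ⟨rfl, h1⟩⟩
  · calc 2 ^ tde (m + 1) * Z ^ 198 ≤ Z ^ 60 * Z ^ 198 := Nat.mul_le_mul_right _ (hT _ hmZ)
      _ = Z ^ 258 := by ring
      _ ≤ (s + 2) ^ 258 := Nat.pow_le_pow_left (by omega) _
      _ ≤ (s + 2) ^ 300 := p_pow (by omega) (by norm_num)

end Pool.Agent.W953.NB
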