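import Mathlib
import Pool.Agent.W953.NB.DTree
import Pool.Agent.W953.NB.QTfae

/-!
# Nondeterministic circuits as the stronger model
-/

set_option autoImplicit false

namespace Pool.Agent.W953.NB

open Pool.Agent.H540R2 Pool.Agent.H540R2.Circuit Pool.Agent.W953.NW

variable {n m : ℕ}

/-- the position of the negation of a literal -/
def swapLit (m : ℕ) : Fin (m + m) → Fin (m + m) :=
  Fin.addCases (fun j => Fin.natAdd m j) (fun j => Fin.castAdd m j)

lemma lits_swap (y : Fin m → Bool) (p : Fin (m + m)) : lits y (swapLit m p) = !(lits y p) := by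
  refine Fin.addCases (fun j => ?_) (fun j => ?_) p
  · rw [swapLit, Fin.addCases_left]
    simp only [lits, Fin.append_left, Fin.append_right]
  · rw [swapLit, Fin.addCases_right]
    simp only [lits, Fin.append_left, Fin.append_right, Bool.not_not]

/-- the literals of `x` and of the literals of `y`, rearranged -/
def ndIx (n m : ℕ) : Fin ((n + (m + m)) + (n + (m + m))) → Fin ((n + n) + (m + m)) :=
  Fin.addCases
    (Fin.addCases (fun i => Fin.castAdd _ (Fin.castAdd n i)) (fun p => Fin.natAdd _ p))
    (Fin.addCases (fun i => Fin.castAdd _ (Fin.natAdd n i))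
      (fun p => Fin.natAdd _ (swapLit m p)))

lemma ndIx_eq (x : Fin n → Bool) (y : Fin m → Bool) (q : Fin ((n + (m + m)) + (n + (m + m)))) :
    Fin.append (lits x) (lits y) (ndIx n m q) = lits (Fin.append x (lits y)) q := by
  refine Fin.addCases (fun q' => ?_) (fun q' => ?_) q
  · rw [ndIx, Fin.addCases_left]
    conv_rhs => rw [lits, Fin.append_left]
    refine Fin.addCases (fun i => ?_) (fun p => ?_) q'
    · rw [Fin.addCases_left, Fin.append_left, Fin.append_left]
      simp only [lits, Fin.append_left]
    · rw [Fin.addCases_right, Fin.append_right, Fin.append_right]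
  · rw [ndIx, Fin.addCases_right]
    conv_rhs => rw [lits, Fin.append_right]
    refine Fin.addCases (fun i => ?_) (fun p => ?_) q'
    · rw [Fin.addCases_left, Fin.append_left, Fin.append_left]
      simp only [lits, Fin.append_right]
    · rw [Fin.addCases_right, Fin.append_right, Fin.append_right]
      exact lits_swap y p

lemma ren_mono (e : Fin n → Fin m) {C : Circuit n} (hC : C.Monotone) : (ren e C).Monotone := by
  intro i hi a h
  have h1 : renG e (C.gate i) = .not a := h
  cases hg : C.gate i with
  | and b c => rw [hg] at h1; simp [renG] at h1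
  | or b c => rw [hg] at h1; simp [renG] at h1
  | not b => exact hC i hi b hg

open Classical in
/-- nondeterministic circuits, which read the guessed bits and their negations -/
def ndB : Big where
  G {n} f s := ∃ (m : ℕ) (C : Circuit (n + (m + m))), C.size ≤ s ∧
    ∀ x, f x = true ↔ ∃ y : Fin m → Bool, C.eval (Fin.append x (lits y)) = true
  M {n} f s := ∃ (m : ℕ) (C : Circuit (n + (m + m))), C.Monotone ∧ C.size ≤ s ∧
    ∀ x, f x = true ↔ ∃ y : Fin m → Bool, C.eval (Fin.append x (lits y)) = true
  toG := fun ⟨m, C, _, h2, h3⟩ => ⟨m, C, h2, h3⟩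
  incr := fun {n f s} ⟨m, C, h1, _, h3⟩ x x' hxy => by
    rw [Bool.le_iff_imp, h3, h3]
    rintro ⟨y, hy⟩
    refine ⟨y, ?_⟩
    have h4 : C.eval (Fin.append x (lits y)) ≤ C.eval (Fin.append x' (lits y)) := by
      refine NW.eval_le h1 fun p => ?_
      refine Fin.addCases (fun i => ?_) (fun i => ?_) p
      · rw [Fin.append_left, Fin.append_left]
        exact hxy i
      · rw [Fin.append_right, Fin.append_right]
    rw [hy] at h4
    exact top_le_iff.mp h4
  dual := fun {n f s} ⟨m, C, h1, h2⟩ => by
    have hev : ∀ (x : Fin n → Bool) (y : Fin m → Bool),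
        (ren (ndIx n m) (dual C)).eval (Fin.append (lits x) (lits y)) =
          C.eval (Fin.append x (lits y)) := by
      intro x y
      rw [ren_eval (ndIx n m) (dual C) (lits (Fin.append x (lits y))) _
        (fun q _ => ndIx_eq x y q), dual_eval]
    refine ⟨fun z => decide (∃ y : Fin m → Bool,
      (ren (ndIx n m) (dual C)).eval (Fin.append z (lits y)) = true),
      ⟨m, ren (ndIx n m) (dual C), ren_mono _ (dual_mono C), ?_,
        fun z => decide_eq_true_iff⟩, fun x => ?_⟩
    · show 2 * C.size ≤ 2 * s
      omega
    · rw [Bool.eq_iff_iff, decide_eq_true_iff, h2]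
      exact exists_congr fun y => by rw [hev]

end Pool.Agent.W953.NB
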