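import Mathlib
import Pool.Agent.W953.NB.Nondet
import Pool.Agent.W953.NB.Dir
import Pool.Agent.W953.SP.Sav

/-!
# Hard functions for directed networks of quasi-polynomial size
-/

set_option autoImplicit false

namespace Pool.Agent.W953.NB

open Pool.Agent.H540R2 Pool.Agent.H540R2.Circuit Pool.Agent.W953.NW Pool.Agent.W953.SP

/-- powers of the logarithm -/
lemma ev_pow (K k : ℕ) : ∃ m₀, ∀ m ≥ m₀, K * (m + 1) ^ k ≤ 2 ^ m := by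
  have h := tendsto_pow_const_div_const_pow_of_one_lt (r := (2 : ℝ)) k (by norm_num)
  have h1 : (0 : ℝ) < 1 / (2 * (K + 1)) := by positivity
  have h2 := (h.eventually (gt_mem_nhds h1))
  rw [Filter.eventually_atTop] at h2
  obtain ⟨m₀, hm₀⟩ := h2
  refine ⟨m₀, fun m hm => ?_⟩
  have h3 := hm₀ (m + 1) (by omega)
  have h4 : (0 : ℝ) < 2 ^ (m + 1) := by positivity
  rw [div_lt_iff₀ h4, pow_succ, one_div] at h3
  have h5 : ((K : ℝ) + 1) * ((m + 1 : ℕ) : ℝ) ^ k < 2 ^ m := by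
    have h6 : (0 : ℝ) < 2 * (K + 1) := by positivity
    have h7 := mul_lt_mul_of_pos_left h3 h6
    have h8 : 2 * ((K : ℝ) + 1) * ((2 * ((K : ℝ) + 1))⁻¹ * (2 ^ m * 2)) = 2 * 2 ^ m := by
      field_simp
    rw [h8] at h7
    linarith
  have h9 : ((K * (m + 1) ^ k : ℕ) : ℝ) < ((2 ^ m : ℕ) : ℝ) := by
    push_cast at h5 ⊢
    have h10 : (0 : ℝ) ≤ ((m : ℝ) + 1) ^ k := by positivity
    nlinarith
  exact_mod_cast h9.le

lemma ev_log (K k : ℕ) : ∃ L₀, ∀ L ≥ L₀, K * (Nat.log 2 L + 1) ^ k ≤ L := by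
  obtain ⟨m₀, hm₀⟩ := ev_pow K k
  refine ⟨2 ^ m₀, fun L hL => ?_⟩
  have h0 : 0 < 2 ^ m₀ := by positivity
  have h1 : m₀ ≤ Nat.log 2 L := Nat.le_log_of_pow_le (by norm_num) hL
  exact (hm₀ _ h1).trans (Nat.pow_log_le_self 2 (by omega))

/-- the bound for the number of variables -/
lemma ev_near (c : ℕ) : ∃ L₀, ∀ L ≥ L₀,
    2 ^ 42 * ((((L + 2) ^ c + 3) ^ 2 + 1) * (Nat.log 2 (((L + 2) ^ c + 3) ^ 2 + 1) + 6) ^ 8) ≤
      L ^ (2 * c + 1) := by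
  obtain ⟨A, hA⟩ : ∃ A, A = (2 ^ c + 3) ^ 2 + 1 := ⟨_, rfl⟩
  obtain ⟨B, hB⟩ : ∃ B, B = A + 2 * c + 6 := ⟨_, rfl⟩
  obtain ⟨L₀, hL₀⟩ := ev_log (2 ^ 42 * A * B ^ 8) 8
  refine ⟨max L₀ 2, fun L hL => ?_⟩
  have hL0 : L₀ ≤ L := (le_max_left _ _).trans hL
  have hL2 : 2 ≤ L := (le_max_right _ _).trans hL
  obtain ⟨D, hD⟩ : ∃ D, D = ((L + 2) ^ c + 3) ^ 2 + 1 := ⟨_, rfl⟩
  rw [← hD]
  have hP : 1 ≤ L ^ c := Nat.one_le_pow _ _ (by omega)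
  have h1 : (L + 2) ^ c + 3 ≤ (2 ^ c + 3) * L ^ c := by
    have : (L + 2) ^ c ≤ 2 ^ c * L ^ c := by
      rw [← mul_pow]
      exact Nat.pow_le_pow_left (by omega) c
    nlinarith
  have h2 : D ≤ A * L ^ (2 * c) := by
    have h3 : ((L + 2) ^ c + 3) ^ 2 ≤ (2 ^ c + 3) ^ 2 * L ^ (2 * c) := by
      calc ((L + 2) ^ c + 3) ^ 2 ≤ ((2 ^ c + 3) * L ^ c) ^ 2 := Nat.pow_le_pow_left h1 2
        _ = (2 ^ c + 3) ^ 2 * L ^ (2 * c) := by rw [mul_pow, ← pow_mul, Nat.mul_comm c 2]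
    have h4 : 1 ≤ L ^ (2 * c) := Nat.one_le_pow _ _ (by omega)
    rw [hD, hA, Nat.add_mul, one_mul]
    omega
  have hA1 : 1 ≤ A := by rw [hA]; omega
  have h5 : Nat.log 2 D + 6 ≤ B * (Nat.log 2 L + 1) := by
    have e1 : D < 2 ^ (A + 2 * c * (Nat.log 2 L + 1)) := by
      have f1 : A < 2 ^ A := Nat.lt_two_pow_self
      have f2 : L ^ (2 * c) ≤ 2 ^ (2 * c * (Nat.log 2 L + 1)) := by
        have : L ≤ 2 ^ (Nat.log 2 L + 1) := (Nat.lt_pow_succ_log_self (by norm_num) L).le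
        calc L ^ (2 * c) ≤ (2 ^ (Nat.log 2 L + 1)) ^ (2 * c) := Nat.pow_le_pow_left this _
          _ = 2 ^ (2 * c * (Nat.log 2 L + 1)) := by rw [← pow_mul, Nat.mul_comm]
      have f3 : 0 < L ^ (2 * c) := by positivity
      calc D ≤ A * L ^ (2 * c) := h2
        _ < 2 ^ A * L ^ (2 * c) := Nat.mul_lt_mul_of_pos_right f1 f3
        _ ≤ 2 ^ A * 2 ^ (2 * c * (Nat.log 2 L + 1)) := Nat.mul_le_mul_left _ f2
        _ = _ := by rw [← pow_add]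
    have e2 : Nat.log 2 D < A + 2 * c * (Nat.log 2 L + 1) := by
      rcases Nat.eq_zero_or_pos D with h0 | h0
      · exact absurd h0 (by rw [hD]; omega)
      · exact Nat.log_lt_of_lt_pow (by omega) e1
    rw [hB]
    nlinarith
  calc 2 ^ 42 * (D * (Nat.log 2 D + 6) ^ 8) ≤
      2 ^ 42 * (A * L ^ (2 * c) * (B * (Nat.log 2 L + 1)) ^ 8) :=
        Nat.mul_le_mul_left _ (Nat.mul_le_mul h2 (Nat.pow_le_pow_left h5 8))
    _ = L ^ (2 * c) * (2 ^ 42 * A * B ^ 8 * (Nat.log 2 L + 1) ^ 8) := by rw [mul_pow]; ring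
    _ ≤ L ^ (2 * c) * L := Nat.mul_le_mul_left _ (hL₀ L hL0)
    _ = L ^ (2 * c + 1) := by rw [pow_succ]

/-- **Hard functions.** -/
theorem qhard (c : ℕ) : ∃ n₀, ∀ n ≥ n₀, ∀ t : ℕ, 2 ^ t * ls n ^ (2 * c + 1) ≤ n →
    ∃ C : Circuit n, C.Monotone ∧ C.size ≤ 3 * n ∧
      ∀ k, k + 2 ^ t * ls n ^ (2 * c + 1) ≤ n → ∀ p : Prog (Net (Fin n)), p.cost ≤ 2 ^ t →
        p.load (dnetTests _) ≤ qb c (3 * n) →
        ∃ x, k ≤ wt x ∧ wt x ≤ k + 2 ^ t * ls n ^ (2 * c + 1) ∧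
          ¬ (p.Acc (dnetTests _) x ↔ C.eval x = true) := by
  obtain ⟨L₀, hL₀⟩ := ev_near c
  refine ⟨2 ^ L₀, fun n hn t ht => ?_⟩
  obtain ⟨L, hL⟩ : ∃ L, L = ls n := ⟨_, rfl⟩
  have hn1 : 0 < n := lt_of_lt_of_le (by positivity) hn
  have hL1 : L₀ ≤ L := by
    have : L₀ ≤ Nat.log 2 n := Nat.le_log_of_pow_le (by norm_num) hn
    rw [hL]
    unfold ls
    omega
  have hls : ls (3 * n) ≤ L + 2 := by
    have h1 : Nat.log 2 (3 * n) ≤ Nat.log 2 (n * 2 * 2) := Nat.log_mono_right (by omega)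
    rw [Nat.log_mul_base (by norm_num) (by omega), Nat.log_mul_base (by norm_num) (by omega)] at h1
    rw [hL]
    unfold ls
    omega
  obtain ⟨ℓ, hℓ⟩ : ∃ ℓ, ℓ = (L + 2) ^ c := ⟨_, rfl⟩
  obtain ⟨D, hD⟩ : ∃ D, D = (ℓ + 3) ^ 2 := ⟨_, rfl⟩
  have hℓD : (ℓ + 3) ^ 2 ≤ 2 * D + 1 := by omega
  have hU0 : W953.PT.vno D ≤ L ^ (2 * c + 1) := by
    have e2 : W953.PT.vno D = 2 ^ 42 * ((D + 1) * (Nat.log 2 (D + 1) + 6) ^ 8) := by
      unfold W953.PT.vno; ring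
    rw [e2, hD, hℓ]
    exact hL₀ L hL1
  rw [← hL] at ht ⊢
  obtain ⟨U, hU⟩ : ∃ U, U = 2 ^ t * W953.PT.vno D := ⟨_, rfl⟩
  have hUL : U ≤ 2 ^ t * L ^ (2 * c + 1) := by rw [hU]; exact Nat.mul_le_mul_left _ hU0
  obtain ⟨r, rfl⟩ : ∃ r, n = U + r := ⟨n - U, by omega⟩
  obtain ⟨C, c1, c2, c3⟩ := hard_circ D (2 ^ t) r U Nat.one_le_two_pow hU
  have hpow : 2 ^ (ℓ ^ 2 + 5 * ℓ + 7) * 2 ^ ℓ < 4 ^ (D + 1) := by
    have h4 : (4 : ℕ) ^ (D + 1) = 2 ^ (2 * (D + 1)) := by rw [pow_mul]; norm_num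
    rw [h4, ← pow_add]
    apply Nat.pow_lt_pow_right (by norm_num)
    have : (ℓ + 3) ^ 2 = ℓ ^ 2 + 6 * ℓ + 9 := by ring
    omega
  refine ⟨C, c1, c2.trans (by omega), fun k hk p hcost hp => ?_⟩
  have hp' : p.load (dnetTests _) ≤ 2 ^ ℓ := by
    refine hp.trans ?_
    unfold qb
    apply Nat.pow_le_pow_right (by norm_num)
    rw [hℓ]
    exact Nat.pow_le_pow_left hls c
  obtain ⟨g', hg'⟩ := exists_toMSP (I := Fin (U + r)) ℓ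
  have hload : (p.map g').load (spTests _) < 4 ^ (D + 1) :=
    lt_of_le_of_lt (Prog.map_load (dnetTests _) (spTests _) g' _ (2 ^ ℓ)
      (fun P hP => (hg' P hP).1) p hp') (lt_of_le_of_lt (Nat.mul_le_mul_left _ hp') hpow)
  obtain ⟨x, x1, x2, x3⟩ := c3 k (by omega) (p.map g')
    (by rw [Prog.map_cost]; exact hcost) hload
  refine ⟨x, x1, x2.trans (by omega), fun hx => x3 ?_⟩
  rw [← hx]
  exact Prog.map_acc (dnetTests _) (spTests _) g' (2 ^ ℓ) x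
    (fun P hP => (hg' P hP).2 x) p hp'

end Pool.Agent.W953.NB
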